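import Mathlib

set_option autoImplicit false

namespace Pool.Agent.Helper92.Bloch

theorem arcConvex {X Y Xa Ya Xb Yb : ℝ} (h : X ^ 2 + Y ^ 2 = 1) (hY : 0 ≤ Y)
    (ha : Xa ^ 2 + Ya ^ 2 = 1) (hb : Xb ^ 2 + Yb ^ 2 = 1) (hYa : 0 ≤ Ya) (hYb : 0 ≤ Yb)
    (hab : Xa < Xb) (h1 : Xa ≤ X) (h2 : X ≤ Xb) :
    ∃ s : ℝ, 0 ≤ s ∧ s ≤ 1 ∧ X = s * Xa + (1 - s) * Xb ∧ s * Ya + (1 - s) * Yb ≤ Y := by
  have hd : 0 < Xb - Xa := by linarith
  refine ⟨(Xb - X) / (Xb - Xa), by apply div_nonneg <;> linarith,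
    by rw [div_le_one hd]; linarith, ?_, ?_⟩
  · field_simp
    ring
  · set s := (Xb - X) / (Xb - Xa) with hs
    have hs0 : 0 ≤ s := by apply div_nonneg <;> linarith
    have hs1 : s ≤ 1 := by rw [hs, div_le_one hd]; linarith
    have hX : X = s * Xa + (1 - s) * Xb := by
      rw [hs]
      field_simp
      ring
    have hc : Xa * Xb + Ya * Yb ≤ 1 := by nlinarith [sq_nonneg (Xa - Xb), sq_nonneg (Ya - Yb)]
    have hm : 0 ≤ s * (1 - s) := mul_nonneg hs0 (by linarith)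
    have key : (s * Ya + (1 - s) * Yb) ^ 2 ≤ Y ^ 2 := by
      have e : (s * Ya + (1 - s) * Yb) ^ 2 + (s * Xa + (1 - s) * Xb) ^ 2
          = s ^ 2 * (Xa ^ 2 + Ya ^ 2) + (1 - s) ^ 2 * (Xb ^ 2 + Yb ^ 2)
            + 2 * (s * (1 - s)) * (Xa * Xb + Ya * Yb) := by ring
      rw [← hX, ha, hb] at e
      nlinarith
    exact abs_le_of_sq_le_sq' key hY |>.2

/-- the three conditions used on one arc -/
def ArcP (C S thr CK V X Y : ℝ) : Prop :=
  thr ≤ X * C + Y * S ∧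
    2 * (351 / 25000) ≤ V - 86602 / 100000 - CK * (1 - (X * C + Y * S)) ∧
    351 / 25000 ≤ V - 86602 / 100000 - CK * (1 - (X * C + Y * S))
      + 351 / 25000 * (1241 / 1209) * X

theorem arc0 {X Y : ℝ} (h : X ^ 2 + Y ^ 2 = 1) (hY : 0 ≤ Y) (h1 : (-1) ≤ X) (h2 : X ≤ (-24989391 / 25010609)) :
    ArcP (-1) 0 (99 / 100) ((151337 / 100000) * (5013 / 5000)) (8957526 / 10000000) X Y := by
  obtain ⟨s, hs0, hs1, hX, hYs⟩ := arcConvex (Xa := (-1)) (Ya := 0) (Xb := (-24989391 / 25010609)) (Yb := (1030000 / 25010609))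
    h hY (by norm_num) (by norm_num) (by norm_num) (by norm_num) (by norm_num) h1 h2
  refine ⟨?_, ?_, ?_⟩ <;> norm_num at hX hYs ⊢ <;> linarith

theorem arc1 {X Y : ℝ} (h : X ^ 2 + Y ^ 2 = 1) (hY : 0 ≤ Y) (h1 : (-24989391 / 25010609) ≤ X) (h2 : X ≤ (-1555939 / 1569061)) :
    ArcP (-1437599 / 1442401) (117600 / 1442401) (99 / 100) ((151337 / 100000) * (5013 / 5000)) (8960886 / 10000000) X Y := by
  obtain ⟨s, hs0, hs1, hX, hYs⟩ := arcConvex (Xa := (-24989391 / 25010609)) (Ya := (1030000 / 25010609)) (Xb := (-1555939 / 1569061)) (Yb := (202500 / 1569061))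
    h hY (by norm_num) (by norm_num) (by norm_num) (by norm_num) (by norm_num) h1 h2
  refine ⟨?_, ?_, ?_⟩ <;> norm_num at hX hYs ⊢ <;> linarith

theorem arc2 {X Y : ℝ} (h : X ^ 2 + Y ^ 2 = 1) (hY : 0 ≤ Y) (h1 : (-1555939 / 1569061) ≤ X) (h2 : X ≤ (-98609959 / 101390041)) :
    ArcP (-69167 / 70225) (12144 / 70225) (99 / 100) ((151337 / 100000) * (5013 / 5000)) (8969266 / 10000000) X Y := by
  obtain ⟨s, hs0, hs1, hX, hYs⟩ := arcConvex (Xa := (-1555939 / 1569061)) (Ya := (202500 / 1569061)) (Xb := (-98609959 / 101390041)) (Yb := (23580000 / 101390041))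
    h hY (by norm_num) (by norm_num) (by norm_num) (by norm_num) (by norm_num) h1 h2
  refine ⟨?_, ?_, ?_⟩ <;> norm_num at hX hYs ⊢ <;> linarith

theorem arc3 {X Y : ℝ} (h : X ^ 2 + Y ^ 2 = 1) (hY : 0 ≤ Y) (h1 : (-98609959 / 101390041) ≤ X) (h2 : X ≤ (-24072631 / 25927369)) :
    ArcP (-6887 / 7225) (2184 / 7225) (99 / 100) ((151337 / 100000) * (5013 / 5000)) (8981986 / 10000000) X Y := by
  obtain ⟨s, hs0, hs1, hX, hYs⟩ := arcConvex (Xa := (-98609959 / 101390041)) (Ya := (23580000 / 101390041)) (Xb := (-24072631 / 25927369)) (Yb := (9630000 / 25927369))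
    h hY (by norm_num) (by norm_num) (by norm_num) (by norm_num) (by norm_num) h1 h2
  refine ⟨?_, ?_, ?_⟩ <;> norm_num at hX hYs ⊢ <;> linarith

theorem arc4 {X Y : ℝ} (h : X ^ 2 + Y ^ 2 = 1) (hY : 0 ≤ Y) (h1 : (-24072631 / 25927369) ≤ X) (h2 : X ≤ (-89906671 / 110093329)) :
    ArcP (-3713 / 4225) (2016 / 4225) (99 / 100) ((151337 / 100000) * (5013 / 5000)) (9046386 / 10000000) X Y := by
  obtain ⟨s, hs0, hs1, hX, hYs⟩ := arcConvex (Xa := (-24072631 / 25927369)) (Ya := (9630000 / 25927369)) (Xb := (-89906671 / 110093329)) (Yb := (63540000 / 110093329))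
    h hY (by norm_num) (by norm_num) (by norm_num) (by norm_num) (by norm_num) h1 h2
  refine ⟨?_, ?_, ?_⟩ <;> norm_num at hX hYs ⊢ <;> linarith

theorem arc5 {X Y : ℝ} (h : X ^ 2 + Y ^ 2 = 1) (hY : 0 ≤ Y) (h1 : (-89906671 / 110093329) ≤ X) (h2 : X ≤ (-2903791 / 5096209)) :
    ArcP (-119 / 169) (120 / 169) (91 / 100) ((151337 / 100000) * (5117 / 5000)) (9177696 / 10000000) X Y := by
  obtain ⟨s, hs0, hs1, hX, hYs⟩ := arcConvex (Xa := (-89906671 / 110093329)) (Ya := (63540000 / 110093329)) (Xb := (-2903791 / 5096209)) (Yb := (4188000 / 5096209))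
    h hY (by norm_num) (by norm_num) (by norm_num) (by norm_num) (by norm_num) h1 h2
  refine ⟨?_, ?_, ?_⟩ <;> norm_num at hX hYs ⊢ <;> linarith

theorem arc6 {X Y : ℝ} (h : X ^ 2 + Y ^ 2 = 1) (hY : 0 ≤ Y) (h1 : (-2903791 / 5096209) ≤ X) (h2 : X ≤ (-35535159 / 164464841)) :
    ArcP (-1241 / 2809) (2520 / 2809) (91 / 100) ((151337 / 100000) * (5117 / 5000)) (9384546 / 10000000) X Y := by
  obtain ⟨s, hs0, hs1, hX, hYs⟩ := arcConvex (Xa := (-2903791 / 5096209)) (Ya := (4188000 / 5096209)) (Xb := (-35535159 / 164464841)) (Yb := (160580000 / 164464841))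
    h hY (by norm_num) (by norm_num) (by norm_num) (by norm_num) (by norm_num) h1 h2
  refine ⟨?_, ?_, ?_⟩ <;> norm_num at hX hYs ⊢ <;> linarith

theorem arc7 {X Y : ℝ} (h : X ^ 2 + Y ^ 2 = 1) (hY : 0 ≤ Y) (h1 : (-35535159 / 164464841) ≤ X) (h2 : X ≤ (119306481 / 319306481)) :
    ArcP (41 / 841) (840 / 841) (91 / 100) ((151337 / 100000) * (5117 / 5000)) (9797746 / 10000000) X Y := by
  obtain ⟨s, hs0, hs1, hX, hYs⟩ := arcConvex (Xa := (-35535159 / 164464841)) (Ya := (160580000 / 164464841)) (Xb := (119306481 / 319306481)) (Yb := (296180000 / 319306481))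
    h hY (by norm_num) (by norm_num) (by norm_num) (by norm_num) (by norm_num) h1 h2
  refine ⟨?_, ?_, ?_⟩ <;> norm_num at hX hYs ⊢ <;> linarith

theorem arc8 {X Y : ℝ} (h : X ^ 2 + Y ^ 2 = 1) (hY : 0 ≤ Y) (h1 : (119306481 / 319306481) ≤ X) (h2 : X ≤ (100851801 / 113351801)) :
    ArcP (4633 / 7225) (5544 / 7225) (91 / 100) ((151337 / 100000) * (5117 / 5000)) (10167396 / 10000000) X Y := by
  obtain ⟨s, hs0, hs1, hX, hYs⟩ := arcConvex (Xa := (119306481 / 319306481)) (Ya := (296180000 / 319306481)) (Xb := (100851801 / 113351801)) (Yb := (51745000 / 113351801))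
    h hY (by norm_num) (by norm_num) (by norm_num) (by norm_num) (by norm_num) h1 h2
  refine ⟨?_, ?_, ?_⟩ <;> norm_num at hX hYs ⊢ <;> linarith

theorem arc9 {X Y : ℝ} (h : X ^ 2 + Y ^ 2 = 1) (hY : 0 ≤ Y) (h1 : (100851801 / 113351801) ≤ X) (h2 : X ≤ (1209 / 1241)) :
    ArcP (9401 / 10201) (3960 / 10201) (91 / 100) ((151337 / 100000) * (5117 / 5000)) (9221726 / 10000000) X Y := by
  obtain ⟨s, hs0, hs1, hX, hYs⟩ := arcConvex (Xa := (100851801 / 113351801)) (Ya := (51745000 / 113351801)) (Xb := (1209 / 1241)) (Yb := (280 / 1241))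
    h hY (by norm_num) (by norm_num) (by norm_num) (by norm_num) (by norm_num) h1 h2
  refine ⟨?_, ?_, ?_⟩ <;> norm_num at hX hYs ⊢ <;> linarith

end Pool.Agent.Helper92.Bloch
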