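import Mathlib

set_option autoImplicit false

namespace Pool.Agent.Helper92.Bloch

open Metric Complex

/-- The derivative of a normalized Bloch function: holomorphic in the unit disc,
`|g(z)| (1 - |z|^2) ≤ 1`, and `g(0) = 1`. -/
structure NB (g : ℂ → ℂ) : Prop where
  diff : DifferentiableOn ℂ g (ball 0 1)
  bound : ∀ z ∈ ball (0 : ℂ) 1, ‖g z‖ * (1 - ‖z‖ ^ 2) ≤ 1
  zero : g 0 = 1

/-- `f` is the primitive of `g` in the disc with `f 0 = 0`. -/
structure Prim (f g : ℂ → ℂ) : Prop where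
  deriv : ∀ z ∈ ball (0 : ℂ) 1, HasDerivAt f (g z) z
  zero : f 0 = 0

/-- Taylor coefficients at `0`. -/
noncomputable def cf (g : ℂ → ℂ) (k : ℕ) : ℂ := (k.factorial : ℂ)⁻¹ * iteratedDeriv k g 0

theorem NB.norm_le {g : ℂ → ℂ} (hg : NB g) {z : ℂ} (hz : ‖z‖ < 1) : ‖g z‖ ≤ 1 / (1 - ‖z‖ ^ 2) := by
  have h1 : 0 < 1 - ‖z‖ ^ 2 := by nlinarith [norm_nonneg z]
  rw [le_div_iff₀ h1]
  exact hg.bound z (by simpa using hz)

theorem hasSum_cf {g : ℂ → ℂ} (hg : DifferentiableOn ℂ g (ball 0 1)) {z : ℂ} (hz : ‖z‖ < 1) :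
    HasSum (fun k => cf g k * z ^ k) (g z) := by
  have h := Complex.hasSum_taylorSeries_on_ball hg (z := z) (by simpa using hz)
  refine h.congr_fun fun k => ?_
  simp only [cf, smul_eq_mul, sub_zero]
  ring

theorem Prim.differentiableOn {f g : ℂ → ℂ} (h : Prim f g) : DifferentiableOn ℂ f (ball 0 1) :=
  fun z hz => (h.deriv z hz).differentiableAt.differentiableWithinAt

theorem cf_deriv {g g' : ℂ → ℂ} (h : ∀ z ∈ ball (0 : ℂ) 1, HasDerivAt g (g' z) z) (k : ℕ) :
    cf g' k = (k + 1) * cf g (k + 1) := by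
  have e : deriv g =ᶠ[nhds 0] g' := by
    filter_upwards [isOpen_ball.mem_nhds (mem_ball_self (x := (0 : ℂ)) one_pos)] with z hz
    exact (h z hz).deriv
  have h2 : iteratedDeriv (k + 1) g 0 = iteratedDeriv k g' 0 := by
    rw [iteratedDeriv_succ']
    exact e.iteratedDeriv_eq k
  have hk : ((k : ℂ) + 1) ≠ 0 := by exact_mod_cast Nat.succ_ne_zero k
  unfold cf
  rw [h2, Nat.factorial_succ]
  push_cast
  field_simp

theorem Prim.hasSum {f g : ℂ → ℂ} (h : Prim f g) {z : ℂ} (hz : ‖z‖ < 1) :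
    HasSum (fun k : ℕ => cf g k * z ^ (k + 1) / (k + 1)) (f z) := by
  have h1 := hasSum_cf h.differentiableOn hz
  have h0 : cf f 0 = 0 := by simp [cf, h.zero]
  rw [hasSum_nat_add_iff' 1 |>.symm] at h1
  simp only [Finset.range_one, Finset.sum_singleton, h0, zero_mul, sub_zero] at h1
  refine h1.congr_fun fun k => ?_
  have hk : ((k : ℂ) + 1) ≠ 0 := by exact_mod_cast Nat.succ_ne_zero k
  rw [cf_deriv h.deriv]
  field_simp

theorem NB.cf_zero {g : ℂ → ℂ} (hg : NB g) : cf g 0 = 1 := by simp [cf, hg.zero]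

theorem NB.deriv_zero {g : ℂ → ℂ} (hg : NB g) : deriv g 0 = 0 := by
  by_contra hne
  set d := deriv g 0 with hd
  have hdn : 0 < ‖d‖ := norm_pos_iff.2 hne
  set u : ℂ := (starRingEnd ℂ) d / ‖d‖ with hu
  have hun : ‖u‖ = 1 := by
    rw [hu, norm_div, RCLike.norm_conj, Complex.norm_real, norm_norm, div_self hdn.ne']
  have hdu : (u * d).re = ‖d‖ := by
    have : u * d = (‖d‖ : ℂ) := by
      rw [hu, div_mul_eq_mul_div, mul_comm ((starRingEnd ℂ) d) d, Complex.mul_conj,
        Complex.normSq_eq_norm_sq]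
      push_cast
      have : (‖d‖ : ℂ) ≠ 0 := by exact_mod_cast hdn.ne'
      field_simp
    rw [this, Complex.ofReal_re]
  have hg0 : HasDerivAt g d 0 :=
    ((hg.diff 0 (by simp)).differentiableAt (isOpen_ball.mem_nhds (by simp))).hasDerivAt
  -- the function t ↦ Re g(t u)
  have h1 : HasDerivAt (fun t : ℝ => g ((t : ℂ) * u)) (u * d) 0 := by
    have h2 : HasDerivAt (fun t : ℂ => g (t * u)) (d * (1 * u)) ((0 : ℝ) : ℂ) := by
      have h3 : HasDerivAt (fun t : ℂ => t * u) (1 * u) ((0 : ℝ) : ℂ) :=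
        (hasDerivAt_id _).mul_const u
      have h4 : HasDerivAt g d (((0 : ℝ) : ℂ) * u) := by simpa using hg0
      exact HasDerivAt.comp _ h4 h3
    have h5 := h2.comp_ofReal
    convert h5 using 1
    ring
  have h6 : HasDerivAt (fun t : ℝ => (g ((t : ℂ) * u)).re) ‖d‖ 0 := by
    rw [← hdu]
    exact (Complex.reCLM.hasFDerivAt.comp_hasDerivAt _ h1)
  have h7 : HasDerivAt (fun t : ℝ => 1 / (1 - t ^ 2)) 0 0 := by
    have h8 : HasDerivAt (fun t : ℝ => 1 - t ^ 2) 0 0 := by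
      have := ((hasDerivAt_id (0 : ℝ)).pow 2).const_sub 1
      simpa using this
    have := (hasDerivAt_const (0 : ℝ) (1 : ℝ)).fun_div h8 (by norm_num)
    simpa using this
  have h9 := h7.sub h6
  have hmin : IsLocalMin (fun t : ℝ => 1 / (1 - t ^ 2) - (g ((t : ℂ) * u)).re) 0 := by
    have hn : ∀ᶠ t : ℝ in nhds 0, |t| < 1 := by
      have := Metric.ball_mem_nhds (0 : ℝ) one_pos
      filter_upwards [this] with t ht
      simpa using ht
    filter_upwards [hn] with t ht
    have e0 : 1 / (1 - (0 : ℝ) ^ 2) - (g (((0 : ℝ) : ℂ) * u)).re = 0 := by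
      simp [hg.zero]
    rw [e0]
    have htn : ‖(t : ℂ) * u‖ = |t| := by rw [norm_mul, hun, mul_one, Complex.norm_real, Real.norm_eq_abs]
    have := hg.norm_le (z := (t : ℂ) * u) (by rw [htn]; exact ht)
    rw [htn, sq_abs] at this
    have h10 := Complex.re_le_norm (g ((t : ℂ) * u))
    linarith
  have h11 := hmin.hasDerivAt_eq_zero h9
  linarith

theorem NB.cf_one {g : ℂ → ℂ} (hg : NB g) : cf g 1 = 0 := by
  simp [cf, iteratedDeriv_one, hg.deriv_zero]

theorem NB.cf_le {g : ℂ → ℂ} (hg : NB g) {q : ℝ} (hq0 : 0 < q) (hq1 : q < 1) (k : ℕ) :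
    ‖cf g k‖ ≤ 1 / ((1 - q ^ 2) * q ^ k) := by
  have h1 : 0 < 1 - q ^ 2 := by nlinarith
  have hsub : closedBall (0 : ℂ) q ⊆ ball 0 1 := closedBall_subset_ball hq1
  have hdc : DiffContOnCl ℂ g (ball 0 q) := by
    refine DifferentiableOn.diffContOnCl ?_
    rw [closure_ball _ hq0.ne']
    exact hg.diff.mono hsub
  have h2 := Complex.norm_iteratedDeriv_le_of_forall_mem_sphere_norm_le k hq0 hdc
    (C := 1 / (1 - q ^ 2)) (by
      intro z hz
      have hz' : ‖z‖ = q := by simpa using hz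
      have := hg.norm_le (z := z) (by rw [hz']; exact hq1)
      rwa [hz'] at this)
  unfold cf
  rw [norm_mul, norm_inv, Complex.norm_natCast]
  have hf : (0 : ℝ) < k.factorial := by exact_mod_cast k.factorial_pos
  rw [inv_mul_le_iff₀ hf]
  refine h2.trans (le_of_eq ?_)
  field_simp

/-- Rotation of a normalized Bloch function. -/
theorem NB.rot {g : ℂ → ℂ} (hg : NB g) {m : ℂ} (hm : ‖m‖ = 1) : NB (fun z => g (m * z)) where
  diff := by
    refine hg.diff.comp (by fun_prop) ?_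
    intro z hz
    simpa [hm] using hz
  bound z hz := by
    have := hg.bound (m * z) (by simpa [hm] using hz)
    rwa [norm_mul, hm, one_mul] at this
  zero := by simp [hg.zero]

theorem Prim.rot {f g : ℂ → ℂ} (h : Prim f g) {m : ℂ} (hm : ‖m‖ = 1) :
    Prim (fun z => (starRingEnd ℂ) m * f (m * z)) (fun z => g (m * z)) where
  deriv z hz := by
    have hmz : m * z ∈ ball (0 : ℂ) 1 := by simpa [hm] using hz
    have h1 := h.deriv _ hmz
    have h2 : HasDerivAt (fun z : ℂ => m * z) (m * 1) z := (hasDerivAt_id z).const_mul m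
    have h3 := (HasDerivAt.comp z h1 h2).const_mul ((starRingEnd ℂ) m)
    have hmm : (starRingEnd ℂ) m * m = 1 := by
      rw [mul_comm, Complex.mul_conj, Complex.normSq_eq_norm_sq, hm]
      norm_num
    have e : (starRingEnd ℂ) m * (g (m * z) * (m * 1)) = g (m * z) := by
      rw [mul_one, mul_comm (g (m * z)) m, ← mul_assoc, hmm, one_mul]
    rw [e] at h3
    exact h3
  zero := by simp [h.zero]

end Pool.Agent.Helper92.Bloch
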