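import Mathlib
import Pool.Agent.Helper92.Bloch.Basic

set_option autoImplicit false

namespace Pool.Agent.Helper92.Bloch

open Metric Complex Filter Topology

theorem pick_identity (u v : ℂ) :
    ‖1 - (starRingEnd ℂ) v * u‖ ^ 2 - ‖u - v‖ ^ 2 = (1 - ‖u‖ ^ 2) * (1 - ‖v‖ ^ 2) := by
  rw [← Complex.normSq_eq_norm_sq, ← Complex.normSq_eq_norm_sq, ← Complex.normSq_eq_norm_sq,
    ← Complex.normSq_eq_norm_sq]
  simp only [Complex.normSq_apply, Complex.sub_re, Complex.sub_im, Complex.one_re, Complex.one_im,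
    Complex.mul_re, Complex.mul_im, Complex.conj_re, Complex.conj_im]
  ring

theorem one_sub_conj_mul_ne {u v : ℂ} (hu : ‖u‖ ≤ 1) (hv : ‖v‖ < 1) :
    1 - (starRingEnd ℂ) v * u ≠ 0 := by
  intro h
  have h1 : (starRingEnd ℂ) v * u = 1 := by
    rw [sub_eq_zero] at h
    exact h.symm
  have h2 : ‖v‖ * ‖u‖ = 1 := by
    rw [← RCLike.norm_conj v, ← norm_mul, h1, norm_one]
  nlinarith [norm_nonneg u, norm_nonneg v]

theorem pick_le {u v : ℂ} (hu : ‖u‖ ≤ 1) (hv : ‖v‖ < 1) :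
    ‖(u - v) / (1 - (starRingEnd ℂ) v * u)‖ ≤ 1 := by
  have h0 := one_sub_conj_mul_ne hu hv
  rw [norm_div, div_le_one (norm_pos_iff.2 h0)]
  have h1 := pick_identity u v
  have h2 : 0 ≤ (1 - ‖u‖ ^ 2) * (1 - ‖v‖ ^ 2) := by
    apply mul_nonneg
    · nlinarith [norm_nonneg u]
    · nlinarith [norm_nonneg v]
  exact abs_le_of_sq_le_sq' (by linarith) (norm_nonneg _) |>.2

theorem pick_lt {u v : ℂ} (hu : ‖u‖ < 1) (hv : ‖v‖ < 1) :
    ‖(u - v) / (1 - (starRingEnd ℂ) v * u)‖ < 1 := by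
  have h0 := one_sub_conj_mul_ne hu.le hv
  rw [norm_div, div_lt_one (norm_pos_iff.2 h0)]
  have h1 := pick_identity u v
  have h2 : 0 < (1 - ‖u‖ ^ 2) * (1 - ‖v‖ ^ 2) := by
    apply mul_pos
    · nlinarith [norm_nonneg u]
    · nlinarith [norm_nonneg v]
  exact lt_of_pow_lt_pow_left₀ 2 (norm_nonneg _) (by linarith)

/-- The Schwarz-Pick lemma. -/
theorem schwarz_pick {h : ℂ → ℂ} (hd : DifferentiableOn ℂ h (ball 0 1))
    (hb : ∀ z ∈ ball (0 : ℂ) 1, ‖h z‖ ≤ 1) {a w : ℂ} (ha : ‖a‖ < 1) (hw : ‖w‖ < 1)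
    (hha : ‖h a‖ < 1) :
    ‖h w - h a‖ * ‖1 - (starRingEnd ℂ) a * w‖ ≤ ‖1 - (starRingEnd ℂ) (h a) * h w‖ * ‖w - a‖ := by
  set φ : ℂ → ℂ := fun ζ => (ζ - (-a)) / (1 - (starRingEnd ℂ) (-a) * ζ) with hφ
  have ha' : ‖-a‖ < 1 := by rwa [norm_neg]
  have hφm : Set.MapsTo φ (ball 0 1) (ball 0 1) := by
    intro ζ hζ
    have hζ' : ‖ζ‖ < 1 := by simpa using hζ
    exact mem_ball_zero_iff.2 (pick_lt hζ' ha')
  have hφd : DifferentiableOn ℂ φ (ball 0 1) := by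
    intro ζ hζ
    have hζ' : ‖ζ‖ < 1 := by simpa using hζ
    have h0 := one_sub_conj_mul_ne hζ'.le ha'
    apply DifferentiableAt.differentiableWithinAt
    exact DifferentiableAt.div (by fun_prop) (by fun_prop) h0
  set F : ℂ → ℂ := fun ζ => (h (φ ζ) - h a) / (1 - (starRingEnd ℂ) (h a) * h (φ ζ)) with hF
  have hFd : DifferentiableOn ℂ F (ball 0 1) := by
    have h1 : DifferentiableOn ℂ (fun ζ => h (φ ζ)) (ball 0 1) := hd.comp hφd hφm
    refine DifferentiableOn.div (h1.sub_const _) ((differentiableOn_const _).sub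
      (h1.const_mul _)) ?_
    intro ζ hζ
    exact one_sub_conj_mul_ne (hb _ (hφm hζ)) hha
  have hF0 : F 0 = 0 := by
    simp [hF, hφ]
  have hFm : Set.MapsTo F (ball 0 1) (closedBall 0 1) := by
    intro ζ hζ
    exact mem_closedBall_zero_iff.2 (pick_le (hb _ (hφm hζ)) hha)
  set ζ : ℂ := (w - a) / (1 - (starRingEnd ℂ) a * w) with hζ
  have hζ1 : ‖ζ‖ < 1 := pick_lt hw ha
  have h0 := one_sub_conj_mul_ne hw.le ha
  have hne : 1 + (starRingEnd ℂ) a * ζ ≠ 0 := by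
    have := one_sub_conj_mul_ne hζ1.le ha'
    simpa using this
  have hφζ : φ ζ = w := by
    have hne2 : 1 - (starRingEnd ℂ) (-a) * ζ ≠ 0 := one_sub_conj_mul_ne hζ1.le ha'
    rw [hφ]
    simp only
    rw [div_eq_iff hne2, hζ]
    simp only [map_neg]
    generalize (starRingEnd ℂ) a = A at h0
    rw [← sub_eq_zero]
    have e : (w - a) / (1 - A * w) * (1 - A * w) = w - a := div_mul_cancel₀ _ h0
    generalize (w - a) / (1 - A * w) = q at e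
    linear_combination e
  have hS := Complex.norm_le_norm_of_mapsTo_ball hFd hFm hF0 hζ1
  have hD := one_sub_conj_mul_ne (hb w (by simpa using hw)) hha
  rw [hF] at hS
  simp only [hφζ] at hS
  rw [hζ, norm_div, norm_div, div_le_div_iff₀ (norm_pos_iff.2 hD) (norm_pos_iff.2 h0)] at hS
  linarith

/-- Invariant form of the Schwarz-Pick inequality. -/
theorem schwarz_pick' {h : ℂ → ℂ} (hd : DifferentiableOn ℂ h (ball 0 1))
    (hb : ∀ z ∈ ball (0 : ℂ) 1, ‖h z‖ ≤ 1) {a w : ℂ} (ha : ‖a‖ < 1) (hw : ‖w‖ < 1)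
    (hha : ‖h a‖ < 1) :
    (1 - ‖w‖ ^ 2) * (1 - ‖a‖ ^ 2) * ‖1 - (starRingEnd ℂ) (h a) * h w‖ ^ 2 ≤
      (1 - ‖h w‖ ^ 2) * (1 - ‖h a‖ ^ 2) * ‖1 - (starRingEnd ℂ) a * w‖ ^ 2 := by
  have h1 := schwarz_pick hd hb ha hw hha
  have h2 := pick_identity w a
  have h3 := pick_identity (h w) (h a)
  have h4 : ‖h w - h a‖ ^ 2 * ‖1 - (starRingEnd ℂ) a * w‖ ^ 2 ≤
      ‖1 - (starRingEnd ℂ) (h a) * h w‖ ^ 2 * ‖w - a‖ ^ 2 := by
    rw [← mul_pow, ← mul_pow]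
    exact pow_le_pow_left₀ (by positivity) h1 2
  rw [← h2, ← h3]
  nlinarith

end Pool.Agent.Helper92.Bloch
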