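import Mathlib
import Pool.Agent.Helper92.Bloch.Julia

set_option autoImplicit false

namespace Pool.Agent.Helper92.Bloch

open Metric Complex Filter Topology

/-- The auxiliary function `g(z) (1 - z/√3)^2`. -/
noncomputable def auxH (g : ℂ → ℂ) (z : ℂ) : ℂ := g z * (1 - z / (Real.sqrt 3 : ℂ)) ^ 2

theorem auxH_zero {g : ℂ → ℂ} (hg : NB g) : auxH g 0 = 1 := by simp [auxH, hg.zero]

theorem auxH_hasDerivAt {g : ℂ → ℂ} (hg : NB g) :
    HasDerivAt (auxH g) (-2 / (Real.sqrt 3 : ℂ)) 0 := by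
  have hg0 : HasDerivAt g 0 0 := by
    have := ((hg.diff 0 (by simp)).differentiableAt (isOpen_ball.mem_nhds (by simp))).hasDerivAt
    rwa [hg.deriv_zero] at this
  have h1 : HasDerivAt (fun z : ℂ => 1 - z / (Real.sqrt 3 : ℂ)) (-(1 / (Real.sqrt 3 : ℂ))) 0 :=
    ((hasDerivAt_id (0 : ℂ)).div_const _).const_sub 1
  have h2 := hg0.mul (h1.pow 2)
  convert! h2 using 1
  simp [hg.zero]
  ring

theorem auxH_norm_le {g : ℂ → ℂ} (hg : NB g) {ζ : ℂ} (hζ : ‖ζ‖ < 1) :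
    ‖((Real.sqrt 3 / 4 : ℝ) : ℂ) * (1 - ζ)‖ < 1 ∧
      ‖auxH g (((Real.sqrt 3 / 4 : ℝ) : ℂ) * (1 - ζ))‖ ≤ 1 := by
  set s := Real.sqrt 3 with hs
  have hs2 : s ^ 2 = 3 := Real.sq_sqrt (by norm_num)
  have hs0 : 0 < s := Real.sqrt_pos.2 (by norm_num)
  have hs3 : s < 2 := by nlinarith
  have hz : ‖((s / 4 : ℝ) : ℂ) * (1 - ζ)‖ < 1 := by
    rw [norm_mul, Complex.norm_real, Real.norm_eq_abs, abs_of_pos (by positivity)]
    have : ‖1 - ζ‖ ≤ 1 + ‖ζ‖ := by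
      simpa using norm_sub_le (1 : ℂ) ζ
    nlinarith [norm_nonneg (1 - ζ)]
  refine ⟨hz, ?_⟩
  set z := ((s / 4 : ℝ) : ℂ) * (1 - ζ) with hzdef
  have hb := hg.bound z (by simpa using hz)
  have h1 : ‖1 - z / (s : ℂ)‖ ^ 2 ≤ 1 - ‖z‖ ^ 2 := by
    have hre : z.re = s / 4 * (1 - ζ.re) := by simp [hzdef]
    have him : z.im = s / 4 * (-ζ.im) := by simp [hzdef]
    have hn : ζ.re ^ 2 + ζ.im ^ 2 ≤ 1 := by
      have : ‖ζ‖ ^ 2 = ζ.re ^ 2 + ζ.im ^ 2 := by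
        rw [← Complex.normSq_eq_norm_sq, Complex.normSq_apply]; ring
      nlinarith [norm_nonneg ζ]
    have e1 : (1 - z / (s : ℂ)).re = 1 - z.re / s := by
      simp [Complex.sub_re, Complex.div_ofReal_re]
    have e2 : (1 - z / (s : ℂ)).im = - z.im / s := by
      simp [Complex.sub_im, Complex.div_ofReal_im, neg_div]
    rw [← Complex.normSq_eq_norm_sq, ← Complex.normSq_eq_norm_sq, Complex.normSq_apply,
      Complex.normSq_apply, e1, e2, hre, him]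
    have e3 : s / 4 * (1 - ζ.re) / s = (1 - ζ.re) / 4 := by field_simp
    have e4 : -(s / 4 * -ζ.im) / s = ζ.im / 4 := by field_simp
    rw [e3, e4]
    have e5 : (s / 4 * (1 - ζ.re)) * (s / 4 * (1 - ζ.re)) = 3 / 16 * (1 - ζ.re) ^ 2 := by
      rw [← hs2]; ring
    have e6 : (s / 4 * -ζ.im) * (s / 4 * -ζ.im) = 3 / 16 * ζ.im ^ 2 := by
      rw [← hs2]; ring
    rw [e5, e6]
    nlinarith
  have h2 : ‖auxH g z‖ = ‖g z‖ * ‖1 - z / (s : ℂ)‖ ^ 2 := by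
    rw [auxH, norm_mul, norm_pow]
  rw [h2]
  exact (mul_le_mul_of_nonneg_left h1 (norm_nonneg _)).trans hb

/-- Julia's lemma for `auxH g` at the boundary point `0` of the disc with diameter
`[0, √3/2]`. -/
theorem julia {g : ℂ → ℂ} (hg : NB g) {x : ℝ} (hx0 : 0 < x) (hx1 : x < Real.sqrt 3 / 2) :
    (Real.sqrt 3 - 2 * x) * ‖1 - auxH g x‖ ^ 2 ≤ x * (1 - ‖auxH g x‖ ^ 2) := by
  set s := Real.sqrt 3 with hs
  have hs2 : s ^ 2 = 3 := Real.sq_sqrt (by norm_num)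
  have hs0 : 0 < s := Real.sqrt_pos.2 (by norm_num)
  set m : ℝ := s / 4 with hm
  have hm0 : 0 < m := by positivity
  set h : ℂ → ℂ := fun ζ => auxH g ((m : ℂ) * (1 - ζ)) with hh
  have hHd : ∀ z : ℂ, ‖z‖ < 1 → DifferentiableAt ℂ (auxH g) z := by
    intro z hz
    have h1 : DifferentiableAt ℂ g z :=
      (hg.diff z (by simpa using hz)).differentiableAt (isOpen_ball.mem_nhds (by simpa using hz))
    unfold auxH
    fun_prop
  have hd : DifferentiableOn ℂ h (ball 0 1) := by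
    intro ζ hζ
    have hζ' : ‖ζ‖ < 1 := by simpa using hζ
    apply DifferentiableAt.differentiableWithinAt
    exact DifferentiableAt.comp ζ (hHd _ (auxH_norm_le hg hζ').1) (by fun_prop)
  have hb : ∀ z ∈ ball (0 : ℂ) 1, ‖h z‖ ≤ 1 := by
    intro ζ hζ
    exact (auxH_norm_le hg (by simpa using hζ)).2
  -- the square of the modulus along the real axis
  set χ : ℝ → ℝ := fun δ => ‖auxH g (δ : ℂ)‖ ^ 2 with hχ
  have hH0 : HasDerivAt (fun δ : ℝ => auxH g (δ : ℂ)) (-2 / (s : ℂ)) 0 := by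
    have h1 : HasDerivAt (auxH g) (-2 / (s : ℂ)) ((0 : ℝ) : ℂ) := by
      simpa using auxH_hasDerivAt hg
    exact h1.comp_ofReal
  have hre : HasDerivAt (fun δ : ℝ => (auxH g (δ : ℂ)).re) (-2 / s) 0 := by
    have := Complex.reCLM.hasFDerivAt.comp_hasDerivAt _ hH0
    have e : Complex.reCLM (-2 / (s : ℂ)) = -2 / s := by
      have : (-2 / (s : ℂ)) = ((-2 / s : ℝ) : ℂ) := by push_cast; ring
      rw [this]; simp
    rw [e] at this
    exact this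
  have him : HasDerivAt (fun δ : ℝ => (auxH g (δ : ℂ)).im) 0 0 := by
    have := Complex.imCLM.hasFDerivAt.comp_hasDerivAt _ hH0
    have e : Complex.imCLM (-2 / (s : ℂ)) = 0 := by
      have : (-2 / (s : ℂ)) = ((-2 / s : ℝ) : ℂ) := by push_cast; ring
      rw [this]; simp
    rw [e] at this
    exact this
  have hχd : HasDerivAt χ (-4 / s) 0 := by
    have h1 := (hre.pow 2).add (him.pow 2)
    have h0 : auxH g ((0 : ℝ) : ℂ) = 1 := by simpa using auxH_zero hg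
    have e : χ = ((fun δ : ℝ => (auxH g (δ : ℂ)).re) ^ 2 + (fun δ : ℝ => (auxH g (δ : ℂ)).im) ^ 2) := by
      funext δ
      simp only [hχ, Pi.add_apply, Pi.pow_apply]
      rw [← Complex.normSq_eq_norm_sq, Complex.normSq_apply]
      ring
    rw [e]
    convert! h1 using 1
    simp only [h0]
    simp
    ring
  have hχ0 : χ 0 = 1 := by
    have h0 : auxH g ((0 : ℝ) : ℂ) = 1 := by simpa using auxH_zero hg
    change ‖auxH g ((0 : ℝ) : ℂ)‖ ^ 2 = 1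
    rw [h0]
    norm_num
  have hslope : Tendsto (fun δ : ℝ => (1 - χ δ) / δ) (𝓝[>] 0) (𝓝 (4 / s)) := by
    have h1 := hχd.tendsto_slope_zero_right
    have h2 := h1.neg
    simp only [zero_add, hχ0, smul_eq_mul] at h2
    have e : -(-4 / s) = 4 / s := by ring
    rw [e] at h2
    refine h2.congr fun δ => ?_
    ring
  have hcont : Tendsto (fun δ : ℝ => auxH g (δ : ℂ)) (𝓝[>] 0) (𝓝 1) := by
    have h0 : auxH g ((0 : ℝ) : ℂ) = 1 := by simpa using auxH_zero hg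
    have := hH0.continuousAt.tendsto
    rw [h0] at this
    exact this.mono_left nhdsWithin_le_nhds
  have hpos : ∀ᶠ δ : ℝ in 𝓝[>] 0, 0 < δ := eventually_mem_nhdsWithin
  have hχlt : ∀ᶠ δ : ℝ in 𝓝[>] 0, χ δ < 1 := by
    have h1 : ∀ᶠ δ : ℝ in 𝓝[>] 0, 0 < (1 - χ δ) / δ :=
      hslope.eventually_const_lt (by positivity)
    filter_upwards [h1, hpos] with δ h2 h3
    have := (div_pos_iff_of_pos_right h3).1 h2
    linarith
  have hsmall : ∀ᶠ δ : ℝ in 𝓝[>] 0, δ < m := by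
    have : Set.Iio m ∈ 𝓝 (0 : ℝ) := Iio_mem_nhds hm0
    exact mem_nhdsWithin_of_mem_nhds this
  set w : ℝ := 1 - x / m with hw
  have hxm : x / m < 2 := by
    rw [div_lt_iff₀ hm0, hm]
    linarith
  have hxm0 : 0 < x / m := by positivity
  have hw1 : ‖(w : ℂ)‖ < 1 := by
    rw [Complex.norm_real, Real.norm_eq_abs, abs_lt, hw]
    constructor <;> linarith
  have hhw : h (w : ℂ) = auxH g (x : ℂ) := by
    have e : (m : ℂ) * (1 - (w : ℂ)) = (x : ℂ) := by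
      rw [hw]
      push_cast
      have : (m : ℂ) ≠ 0 := by exact_mod_cast hm0.ne'
      field_simp
      ring
    simp only [hh, e]
  have key : ∀ᶠ δ : ℝ in 𝓝[>] 0,
      (1 - w ^ 2) * ((2 - δ / m) / m) * ‖1 - (starRingEnd ℂ) (auxH g (δ : ℂ)) * auxH g (x : ℂ)‖ ^ 2 ≤
        (1 - ‖auxH g (x : ℂ)‖ ^ 2) * ((1 - χ δ) / δ) * (1 - (1 - δ / m) * w) ^ 2 := by
    filter_upwards [hpos, hχlt, hsmall] with δ h1 h2 h3
    set a : ℝ := 1 - δ / m with ha
    have hdm : δ / m < 1 := by rwa [div_lt_one hm0]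
    have hdm0 : 0 < δ / m := by positivity
    have ha1 : ‖(a : ℂ)‖ < 1 := by
      rw [Complex.norm_real, Real.norm_eq_abs, abs_lt, ha]
      constructor <;> linarith
    have hha : h (a : ℂ) = auxH g (δ : ℂ) := by
      have e : (m : ℂ) * (1 - (a : ℂ)) = (δ : ℂ) := by
        rw [ha]
        push_cast
        have : (m : ℂ) ≠ 0 := by exact_mod_cast hm0.ne'
        field_simp
        ring
      simp only [hh, e]
    have hha1 : ‖h (a : ℂ)‖ < 1 := by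
      rw [hha]
      have : ‖auxH g (δ : ℂ)‖ ^ 2 < 1 := h2
      nlinarith [norm_nonneg (auxH g (δ : ℂ))]
    have hP := schwarz_pick' hd hb ha1 hw1 hha1
    rw [hhw, hha] at hP
    have e1 : ‖(w : ℂ)‖ ^ 2 = w ^ 2 := by rw [Complex.norm_real, Real.norm_eq_abs, sq_abs]
    have e2 : ‖(a : ℂ)‖ ^ 2 = a ^ 2 := by rw [Complex.norm_real, Real.norm_eq_abs, sq_abs]
    have e3 : ‖1 - (starRingEnd ℂ) (a : ℂ) * (w : ℂ)‖ ^ 2 = (1 - a * w) ^ 2 := by
      have : (1 - (starRingEnd ℂ) (a : ℂ) * (w : ℂ)) = ((1 - a * w : ℝ) : ℂ) := by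
        rw [Complex.conj_ofReal]; push_cast; ring
      rw [this, Complex.norm_real, Real.norm_eq_abs, sq_abs]
    rw [e1, e2, e3] at hP
    have e4 : 1 - a ^ 2 = ((2 - δ / m) / m) * δ := by
      rw [ha]; field_simp; ring
    have e5 : (1 - ‖auxH g (δ : ℂ)‖ ^ 2) = ((1 - χ δ) / δ) * δ := by
      rw [div_mul_cancel₀ _ h1.ne']
    rw [e4, e5] at hP
    have hP' : ((1 - w ^ 2) * ((2 - δ / m) / m) *
        ‖1 - (starRingEnd ℂ) (auxH g (δ : ℂ)) * auxH g (x : ℂ)‖ ^ 2) * δ ≤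
        ((1 - ‖auxH g (x : ℂ)‖ ^ 2) * ((1 - χ δ) / δ) * (1 - a * w) ^ 2) * δ := by
      linarith
    exact le_of_mul_le_mul_right hP' h1
  have hL : Tendsto (fun δ : ℝ => (1 - w ^ 2) * ((2 - δ / m) / m) *
      ‖1 - (starRingEnd ℂ) (auxH g (δ : ℂ)) * auxH g (x : ℂ)‖ ^ 2) (𝓝[>] 0)
      (𝓝 ((1 - w ^ 2) * ((2 - 0 / m) / m) * ‖1 - (starRingEnd ℂ) 1 * auxH g (x : ℂ)‖ ^ 2)) := by
    have hδ : Tendsto (fun δ : ℝ => δ) (𝓝[>] (0 : ℝ)) (𝓝 0) := nhdsWithin_le_nhds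
    have h1 : Tendsto (fun δ : ℝ => (2 - δ / m) / m) (𝓝[>] (0 : ℝ)) (𝓝 ((2 - 0 / m) / m)) :=
      ((hδ.div_const m).const_sub 2).div_const m
    have h2 : Tendsto (fun δ : ℝ => (starRingEnd ℂ) (auxH g (δ : ℂ))) (𝓝[>] 0)
        (𝓝 ((starRingEnd ℂ) 1)) := (Complex.continuous_conj.tendsto _).comp hcont
    have h3 := (((h2.mul_const (auxH g (x : ℂ))).const_sub 1).norm).pow 2
    exact (h1.const_mul _).mul h3
  have hR : Tendsto (fun δ : ℝ => (1 - ‖auxH g (x : ℂ)‖ ^ 2) * ((1 - χ δ) / δ) *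
      (1 - (1 - δ / m) * w) ^ 2) (𝓝[>] 0)
      (𝓝 ((1 - ‖auxH g (x : ℂ)‖ ^ 2) * (4 / s) * (1 - (1 - 0 / m) * w) ^ 2)) := by
    have hδ : Tendsto (fun δ : ℝ => δ) (𝓝[>] (0 : ℝ)) (𝓝 0) := nhdsWithin_le_nhds
    have h1 : Tendsto (fun δ : ℝ => (1 - (1 - δ / m) * w) ^ 2) (𝓝[>] (0 : ℝ))
        (𝓝 ((1 - (1 - 0 / m) * w) ^ 2)) :=
      ((((hδ.div_const m).const_sub 1).mul_const w).const_sub 1).pow 2
    exact (hslope.const_mul _).mul h1
  have hfin := le_of_tendsto_of_tendsto hL hR key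
  simp only [zero_div, sub_zero, one_mul, map_one] at hfin
  -- unwind
  have e1 : 1 - w ^ 2 = (x / m) * (2 - x / m) := by rw [hw]; ring
  have e2 : (1 - w) ^ 2 = (x / m) ^ 2 := by rw [hw]; ring
  rw [e1, e2] at hfin
  have hm4 : m = s / 4 := hm
  have h3 : (x / m * (2 - x / m)) * (2 / m) = (x / m ^ 2) * (2 * (2 - x / m)) := by
    field_simp
  have h4 : (2 - x / m) = (s - 2 * x) * (2 / s) := by
    rw [hm4]; field_simp; ring
  have h5 : (4 / s) * (x / m) ^ 2 = (x / m ^ 2) * (4 / s * x) := by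
    field_simp
  have hpos' : 0 < (x / m ^ 2) * (4 / s) := by positivity
  have h6 : (x / m ^ 2) * (4 / s) * ((s - 2 * x) * ‖1 - auxH g (x : ℂ)‖ ^ 2) ≤
      (x / m ^ 2) * (4 / s) * (x * (1 - ‖auxH g (x : ℂ)‖ ^ 2)) := by
    calc (x / m ^ 2) * (4 / s) * ((s - 2 * x) * ‖1 - auxH g (x : ℂ)‖ ^ 2)
        = x / m * (2 - x / m) * (2 / m) * ‖1 - auxH g (x : ℂ)‖ ^ 2 := by
          rw [h3, h4]; ring
      _ ≤ (1 - ‖auxH g (x : ℂ)‖ ^ 2) * (4 / s) * (x / m) ^ 2 := hfin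
      _ = (x / m ^ 2) * (4 / s) * (x * (1 - ‖auxH g (x : ℂ)‖ ^ 2)) := by
          rw [show (1 - ‖auxH g (x : ℂ)‖ ^ 2) * (4 / s) * (x / m) ^ 2
            = (1 - ‖auxH g (x : ℂ)‖ ^ 2) * ((4 / s) * (x / m) ^ 2) by ring, h5]; ring
  exact le_of_mul_le_mul_left h6 hpos'

/-- Bonk's distortion theorem on the positive real axis. -/
theorem bonk_real {g : ℂ → ℂ} (hg : NB g) {x : ℝ} (hx0 : 0 ≤ x) (hx1 : x < Real.sqrt 3 / 2) :
    (1 - Real.sqrt 3 * x) / (1 - x / Real.sqrt 3) ^ 3 ≤ (g x).re := by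
  set s := Real.sqrt 3 with hs
  have hs2 : s ^ 2 = 3 := Real.sq_sqrt (by norm_num)
  have hs0 : 0 < s := Real.sqrt_pos.2 (by norm_num)
  rcases hx0.eq_or_lt with h0 | h0
  · rw [← h0]; simp [hg.zero]
  have hJ := julia hg h0 hx1
  rw [← hs] at hJ
  have hxs : x / s < 1 := by
    rw [div_lt_one hs0]; linarith
  have hpos : 0 < 1 - x / s := by linarith
  set t := (auxH g (x : ℂ)).re with ht
  set n := ‖auxH g (x : ℂ)‖ ^ 2 with hn
  have hn1 : t ^ 2 ≤ n := by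
    rw [hn, ← Complex.normSq_eq_norm_sq, Complex.normSq_apply, ht]
    nlinarith [mul_self_nonneg (auxH g (x : ℂ)).im]
  have hn2 : ‖1 - auxH g (x : ℂ)‖ ^ 2 = 1 - 2 * t + n := by
    rw [hn, ← Complex.normSq_eq_norm_sq, ← Complex.normSq_eq_norm_sq, Complex.normSq_apply,
      Complex.normSq_apply, ht]
    simp only [Complex.sub_re, Complex.sub_im, Complex.one_re, Complex.one_im]
    ring
  rw [hn2] at hJ
  have hsx : 0 < s - x := by linarith
  have hq : (t - 1) * ((s - x) * t - (s - 3 * x)) ≤ 0 := by nlinarith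
  have ht' : s - 3 * x ≤ (s - x) * t := by
    by_contra hcon
    push Not at hcon
    have h1 : t < 1 := by nlinarith
    nlinarith
  have e : auxH g (x : ℂ) = g x * (((1 - x / s) ^ 2 : ℝ) : ℂ) := by
    simp only [auxH]
    push_cast
    ring
  have ht2 : t = (g x).re * (1 - x / s) ^ 2 := by
    rw [ht, e, Complex.re_mul_ofReal]
  rw [div_le_iff₀ (by positivity)]
  have h1 : s - x = s * (1 - x / s) := by field_simp
  have h2 : s - 3 * x = s * (1 - s * x) := by nlinarith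
  rw [h1, h2, ht2] at ht'
  have h3 : s * (1 - s * x) ≤ s * ((g x).re * (1 - x / s) ^ 3) := by
    calc s * (1 - s * x) ≤ s * (1 - x / s) * ((g x).re * (1 - x / s) ^ 2) := ht'
      _ = s * ((g x).re * (1 - x / s) ^ 3) := by ring
  exact le_of_mul_le_mul_left h3 hs0

end Pool.Agent.Helper92.Bloch
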