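import Mathlib

set_option autoImplicit false

namespace Pool.Agent.Helper92.Bloch

/-- A point of a dual certificate: node `(X + iY)/D`, weight `(U + iV)/W`, with `M` an upper bound
for `|U + iV|` and `N / W` an upper bound for `|weight| / (1 - |node|^2)`. -/
structure CPt where
  X : ℤ
  Y : ℤ
  U : ℤ
  V : ℤ
  M : ℤ
  N : ℤ

/-- multiply the weight by the node -/
def CPt.step (p : CPt) : CPt := ⟨p.X, p.Y, p.U * p.X - p.V * p.Y, p.U * p.Y + p.V * p.X, p.M, p.N⟩

def sumU : List CPt → ℤ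
  | [] => 0
  | p :: L => p.U + sumU L

def stepL : List CPt → List CPt
  | [] => []
  | p :: L => p.step :: stepL L

/-- real part of `(a + bi)^k` together with the imaginary part -/
def gpow (a b : ℤ) : ℕ → ℤ × ℤ
  | 0 => (1, 0)
  | k + 1 => ((gpow a b k).1 * a - (gpow a b k).2 * b, (gpow a b k).1 * b + (gpow a b k).2 * a)

def loop (D T : ℤ) (num den : ℕ → ℤ) : ℕ → ℕ → ℤ → List CPt → Bool
  | 0, _, _, _ => true
  | fuel + 1, k, Wk, L =>
    (decide ((num k * Wk + sumU L * den k) * T ≤ den k * Wk) &&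
      decide (-(den k * Wk) ≤ (num k * Wk + sumU L * den k) * T)) &&
      loop D T num den fuel (k + 1) (Wk * D) (stepL L)

/-- all side conditions of one point -/
def ptOK (D tn td : ℤ) (p : CPt) : Bool :=
  (decide (0 ≤ p.M) && decide (p.U * p.U + p.V * p.V ≤ p.M * p.M)) &&
    (decide (p.M * (D * D) ≤ p.N * (D * D - (p.X * p.X + p.Y * p.Y))) &&
      decide ((p.X * p.X + p.Y * p.Y) * (td * td) ≤ (tn * tn) * (D * D)))

def allOK (D tn td : ℤ) : List CPt → Bool
  | [] => true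
  | p :: L => ptOK D tn td p && allOK D tn td L

def sumN : List CPt → ℤ
  | [] => 0
  | p :: L => p.N + sumN L

def sumT (h : ℕ) : List CPt → ℤ
  | [] => 0
  | p :: L => p.M * (p.X * p.X + p.Y * p.Y) ^ h + sumT h L

/-- the complete check of a certificate -/
def fullCheck (num den : ℕ → ℤ) (L : List CPt) (sv st : ℤ) : Bool :=
  loop (2 ^ 20) (10 ^ 12) num den 71 2 (2 ^ 100 * (2 ^ 20) ^ 2) (stepL (stepL L)) &&
    (allOK (2 ^ 20) 8701 10000 L &&
      (decide (sv * 2 ^ 100 ≤ (sumU L - sumN L) * 10 ^ 7) &&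
        decide (sumT 36 L * 10 ^ 12 ≤ st * (2 ^ 100 * (2 ^ 20) ^ 72))))

/-- coefficients of the pair functional for the unit `(a + bi)/c` -/
def nmP (a b : ℤ) (k : ℕ) : ℤ := 2 * (gpow a b k).1 * 577 ^ (k + 1)
def dnP (c : ℤ) (k : ℕ) : ℤ := c ^ k * 1000 ^ (k + 1) * (k + 1)

/-- coefficients of the second derivative functional -/
def nmS (k : ℕ) : ℤ := k ^ 2 * 577 ^ (k + 1)
def dnS (k : ℕ) : ℤ := 1000 ^ (k + 1) * (k + 1)

end Pool.Agent.Helper92.Bloch
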