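import Mathlib
import Pool.Agent.Helper92.Bloch.Basic
import Pool.Agent.Helper92.Bloch.Checker

set_option autoImplicit false

namespace Pool.Agent.Helper92.Bloch

open Metric Complex

theorem NB.re_cf_le {g : ℂ → ℂ} (hg : NB g) {q : ℝ} (hq0 : 0 < q) (hq1 : q < 1) (k : ℕ) :
    |(cf g k).re| ≤ 1 / ((1 - q ^ 2) * q ^ k) :=
  (Complex.abs_re_le_norm _).trans (hg.cf_le hq0 hq1 k)

/-- The abstract certificate inequality. -/
theorem certA {g : ℂ → ℂ} (hg : NB g) {q t τ T1 Φ : ℝ} (hq0 : 0 < q) (hq1 : q < 1)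
    (ht0 : 0 ≤ t) (htq : t < q) (K : ℕ) (hτ : 0 ≤ τ) (b : ℕ → ℝ)
    (h1 : ∀ k, 2 ≤ k → k ≤ K → |b k| ≤ τ)
    (h2 : ∀ j, |b (j + (K + 1))| ≤ T1 * t ^ j)
    (hΦ : HasSum (fun k => b k * (cf g k).re) Φ) :
    b 0 - ((K : ℝ) * (τ / ((1 - q ^ 2) * q ^ K)) + T1 / ((1 - q ^ 2) * q ^ (K + 1) * (1 - t / q)))
      ≤ Φ := by
  have hq2 : 0 < 1 - q ^ 2 := by nlinarith
  have hT1 : 0 ≤ T1 := by
    have := (abs_nonneg _).trans (h2 0)
    simpa using this
  have htail := (hasSum_nat_add_iff' (K + 1)).2 hΦ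
  have htq1 : t / q < 1 := (div_lt_one hq0).2 htq
  have htq0 : 0 ≤ t / q := div_nonneg ht0 hq0.le
  have hgeo := (hasSum_geometric_of_lt_one htq0 htq1).mul_left (T1 / ((1 - q ^ 2) * q ^ (K + 1)))
  have hb := htail.norm_le_of_bounded hgeo (by
    intro j
    rw [Real.norm_eq_abs, abs_mul]
    have e1 := hg.re_cf_le hq0 hq1 (j + (K + 1))
    calc |b (j + (K + 1))| * |(cf g (j + (K + 1))).re|
        ≤ (T1 * t ^ j) * (1 / ((1 - q ^ 2) * q ^ (j + (K + 1)))) :=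
          mul_le_mul (h2 j) e1 (abs_nonneg _) (by positivity)
      _ = T1 / ((1 - q ^ 2) * q ^ (K + 1)) * (t / q) ^ j := by
          rw [div_pow, pow_add]
          field_simp)
  rw [Real.norm_eq_abs] at hb
  have hb1 := (abs_le.1 hb).1
  have hfin : b 0 - (K : ℝ) * (τ / ((1 - q ^ 2) * q ^ K))
      ≤ ∑ i ∈ Finset.range (K + 1), b i * (cf g i).re := by
    rw [Finset.sum_range_succ']
    have h0 : b 0 * (cf g 0).re = b 0 := by rw [hg.cf_zero]; simp
    rw [h0]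
    have h3 : ∑ i ∈ Finset.range K, -(τ / ((1 - q ^ 2) * q ^ K))
        ≤ ∑ i ∈ Finset.range K, b (i + 1) * (cf g (i + 1)).re := by
      refine Finset.sum_le_sum fun i hi => ?_
      have hiK : i < K := Finset.mem_range.1 hi
      have h4 : |b (i + 1) * (cf g (i + 1)).re| ≤ τ / ((1 - q ^ 2) * q ^ K) := by
        rcases Nat.eq_zero_or_pos i with h0 | h0
        · subst h0
          simp only [zero_add, hg.cf_one, Complex.zero_re, mul_zero, abs_zero]
          positivity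
        · rw [abs_mul]
          have e1 := hg.re_cf_le hq0 hq1 (i + 1)
          have e2 : (1 : ℝ) / ((1 - q ^ 2) * q ^ (i + 1)) ≤ 1 / ((1 - q ^ 2) * q ^ K) := by
            apply one_div_le_one_div_of_le (by positivity)
            apply mul_le_mul_of_nonneg_left _ hq2.le
            exact pow_le_pow_of_le_one hq0.le hq1.le hiK
          calc |b (i + 1)| * |(cf g (i + 1)).re| ≤ τ * (1 / ((1 - q ^ 2) * q ^ K)) :=
                mul_le_mul (h1 _ (by omega) (by omega)) (e1.trans e2) (abs_nonneg _) hτ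
            _ = _ := by ring
      exact (abs_le.1 h4).1
    rw [Finset.sum_const, Finset.card_range, nsmul_eq_mul] at h3
    linarith
  have e3 : T1 / ((1 - q ^ 2) * q ^ (K + 1)) * (1 - t / q)⁻¹
      = T1 / ((1 - q ^ 2) * q ^ (K + 1) * (1 - t / q)) := by
    rw [← div_eq_mul_inv, div_div]
  rw [e3] at hb1
  linarith

/-! ### Points -/

noncomputable def CPt.z (D : ℤ) (p : CPt) : ℂ := ((p.X : ℝ) + (p.Y : ℝ) * I) / (D : ℝ)
noncomputable def CPt.w (W : ℤ) (p : CPt) : ℂ := ((p.U : ℝ) + (p.V : ℝ) * I) / (W : ℝ)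

theorem norm_mk (a b : ℝ) : ‖((a : ℂ) + (b : ℂ) * I)‖ ^ 2 = a ^ 2 + b ^ 2 := by
  rw [← Complex.normSq_eq_norm_sq, Complex.normSq_add_mul_I]

theorem CPt.norm_z (D : ℤ) (p : CPt) : ‖p.z D‖ ^ 2 = ((p.X : ℝ) ^ 2 + (p.Y : ℝ) ^ 2) / (D : ℝ) ^ 2 := by
  unfold CPt.z
  rw [norm_div, div_pow, norm_mk, Complex.norm_real, Real.norm_eq_abs, sq_abs]

theorem CPt.norm_w (W : ℤ) (p : CPt) : ‖p.w W‖ ^ 2 = ((p.U : ℝ) ^ 2 + (p.V : ℝ) ^ 2) / (W : ℝ) ^ 2 := by
  unfold CPt.w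
  rw [norm_div, div_pow, norm_mk, Complex.norm_real, Real.norm_eq_abs, sq_abs]

theorem CPt.step_iter (p : CPt) (k : ℕ) :
    ((((CPt.step^[k]) p).U : ℝ) : ℂ) + (((((CPt.step^[k]) p).V : ℝ)) : ℂ) * I
      = (((p.U : ℝ) : ℂ) + ((p.V : ℝ) : ℂ) * I) * (((p.X : ℝ) : ℂ) + ((p.Y : ℝ) : ℂ) * I) ^ k ∧
    ((CPt.step^[k]) p).X = p.X ∧ ((CPt.step^[k]) p).Y = p.Y := by
  induction k with
  | zero => simp
  | succ k ih =>
    rw [Function.iterate_succ_apply']
    obtain ⟨h1, h2, h3⟩ := ih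
    refine ⟨?_, ?_, ?_⟩
    · rw [pow_succ, ← mul_assoc, ← h1]
      simp only [CPt.step, h2, h3]
      push_cast
      ring_nf
      rw [Complex.I_sq]
      ring
    · simp [CPt.step, h2]
    · simp [CPt.step, h3]

theorem CPt.re_wz (D W : ℤ) (p : CPt) (k : ℕ) :
    (p.w W * p.z D ^ k).re = (((CPt.step^[k]) p).U : ℝ) / ((W : ℝ) * (D : ℝ) ^ k) := by
  have h := (p.step_iter k).1
  have e : p.w W * p.z D ^ k
      = (((((CPt.step^[k]) p).U : ℝ) : ℂ) + (((((CPt.step^[k]) p).V : ℝ)) : ℂ) * I)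
        / (((W : ℝ) * (D : ℝ) ^ k : ℝ) : ℂ) := by
    rw [h]
    unfold CPt.w CPt.z
    rw [div_pow]
    push_cast
    rw [div_mul_div_comm]
  rw [e, Complex.div_ofReal_re]
  simp

theorem ptSum {g : ℂ → ℂ} (hg : NB g) {z w : ℂ} (hz : ‖z‖ < 1) {N : ℝ}
    (hN : ‖w‖ ≤ N * (1 - ‖z‖ ^ 2)) :
    ∃ s ≤ N, HasSum (fun k => (w * z ^ k).re * (cf g k).re) s := by
  have h1 := (hasSum_cf hg.diff hz).mul_left w
  have hz' : ‖(starRingEnd ℂ) z‖ < 1 := by rwa [RCLike.norm_conj]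
  have h2 := (hasSum_cf hg.diff hz').mul_left ((starRingEnd ℂ) w)
  have h3 := ((h1.add h2).mul_left (1 / 2 : ℂ))
  have h4 := Complex.reCLM.hasSum h3
  refine ⟨_, ?_, (h4.congr_fun fun k => ?_)⟩
  · have hp : 0 < 1 - ‖z‖ ^ 2 := by nlinarith [norm_nonneg z]
    have e1 := hg.norm_le hz
    have e2 := hg.norm_le hz'
    rw [RCLike.norm_conj] at e2
    have e3 : ‖w * g z‖ ≤ N := by
      rw [norm_mul]
      calc ‖w‖ * ‖g z‖ ≤ (N * (1 - ‖z‖ ^ 2)) * (1 / (1 - ‖z‖ ^ 2)) :=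
            mul_le_mul hN e1 (norm_nonneg _) ((norm_nonneg _).trans hN)
        _ = N := by field_simp
    have e4 : ‖(starRingEnd ℂ) w * g ((starRingEnd ℂ) z)‖ ≤ N := by
      rw [norm_mul, RCLike.norm_conj]
      calc ‖w‖ * ‖g ((starRingEnd ℂ) z)‖ ≤ (N * (1 - ‖z‖ ^ 2)) * (1 / (1 - ‖z‖ ^ 2)) :=
            mul_le_mul hN e2 (norm_nonneg _) ((norm_nonneg _).trans hN)
        _ = N := by field_simp
    have e5 := Complex.re_le_norm (w * g z)
    have e6 := Complex.re_le_norm ((starRingEnd ℂ) w * g ((starRingEnd ℂ) z))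
    simp only [Complex.reCLM_apply]
    have e7 : (1 / 2 * (w * g z + (starRingEnd ℂ) w * g ((starRingEnd ℂ) z)) : ℂ).re
        = 1 / 2 * ((w * g z).re + ((starRingEnd ℂ) w * g ((starRingEnd ℂ) z)).re) := by
      rw [← Complex.add_re]
      have : (1 / 2 : ℂ) = ((1 / 2 : ℝ) : ℂ) := by push_cast; ring
      rw [this, Complex.re_ofReal_mul]
    rw [e7]
    linarith
  · simp only [Complex.reCLM_apply]
    have e : (1 / 2 : ℂ) * (w * (cf g k * z ^ k)
        + (starRingEnd ℂ) w * (cf g k * (starRingEnd ℂ) z ^ k))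
        = (((w * z ^ k).re : ℝ) : ℂ) * cf g k := by
      have e2 : (((w * z ^ k).re : ℝ) : ℂ) = (w * z ^ k + (starRingEnd ℂ) (w * z ^ k)) / 2 :=
        Complex.re_eq_add_conj _
      rw [e2, map_mul, map_pow]
      ring
    rw [e, Complex.re_ofReal_mul]

/-! ### The integer checker -/

theorem stepL_iter_nil (k : ℕ) : (stepL^[k]) [] = [] := by
  induction k with
  | zero => rfl
  | succ k ih => rw [Function.iterate_succ_apply', ih]; rfl

theorem stepL_iter_cons (p : CPt) (L : List CPt) (k : ℕ) :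
    (stepL^[k]) (p :: L) = ((CPt.step^[k]) p) :: ((stepL^[k]) L) := by
  induction k with
  | zero => rfl
  | succ k ih =>
    rw [Function.iterate_succ_apply', ih, Function.iterate_succ_apply',
      Function.iterate_succ_apply']
    rfl

/-- k-th moment of the list of points -/
noncomputable def mom (D W : ℤ) (L : List CPt) (k : ℕ) : ℝ :=
  (sumU ((stepL^[k]) L) : ℝ) / ((W : ℝ) * (D : ℝ) ^ k)

theorem mom_cons (D W : ℤ) (p : CPt) (L : List CPt) (k : ℕ) :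
    mom D W (p :: L) k = (p.w W * p.z D ^ k).re + mom D W L k := by
  unfold mom
  rw [stepL_iter_cons, CPt.re_wz]
  simp only [sumU]
  push_cast
  rw [add_div]

theorem ptOK_spec {D W tn td : ℤ} (hD : 0 < D) (hW : 0 < W) (htd : 0 < td) (htn : 0 ≤ tn)
    (htt : tn < td) {p : CPt}
    (h : ptOK D tn td p = true) :
    ‖p.z D‖ ≤ (tn : ℝ) / td ∧ ‖p.w W‖ ≤ (p.M : ℝ) / W ∧
      ‖p.w W‖ ≤ ((p.N : ℝ) / W) * (1 - ‖p.z D‖ ^ 2) := by
  have hDr : (0 : ℝ) < D := by exact_mod_cast hD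
  have hWr : (0 : ℝ) < W := by exact_mod_cast hW
  have htdr : (0 : ℝ) < td := by exact_mod_cast htd
  have htnr : (0 : ℝ) ≤ tn := by exact_mod_cast htn
  simp only [ptOK, Bool.and_eq_true, decide_eq_true_eq] at h
  obtain ⟨⟨hM, hUV⟩, hN, hz⟩ := h
  have hMr : (0 : ℝ) ≤ p.M := by exact_mod_cast hM
  have hUVr : (p.U : ℝ) * p.U + p.V * p.V ≤ p.M * p.M := by exact_mod_cast hUV
  have hNr : (p.M : ℝ) * (D * D) ≤ p.N * (D * D - (p.X * p.X + p.Y * p.Y)) := by exact_mod_cast hN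
  have hzr : ((p.X : ℝ) * p.X + p.Y * p.Y) * (td * td) ≤ (tn * tn) * (D * D) := by exact_mod_cast hz
  have e1 : ‖p.z D‖ ≤ (tn : ℝ) / td := by
    apply le_of_sq_le_sq _ (by positivity)
    rw [CPt.norm_z, div_pow, div_le_div_iff₀ (by positivity) (by positivity)]
    nlinarith
  have e2 : ‖p.w W‖ ≤ (p.M : ℝ) / W := by
    apply le_of_sq_le_sq _ (by positivity)
    rw [CPt.norm_w, div_pow]
    apply div_le_div_of_nonneg_right _ (by positivity)
    nlinarith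
  refine ⟨e1, e2, e2.trans ?_⟩
  rw [CPt.norm_z]
  have e3 : (p.N : ℝ) / W * (1 - ((p.X : ℝ) ^ 2 + (p.Y : ℝ) ^ 2) / (D : ℝ) ^ 2)
      = (p.N * (D * D - (p.X * p.X + p.Y * p.Y))) / (W * (D * D)) := by
    field_simp
  rw [e3, div_le_div_iff₀ hWr (by positivity)]
  nlinarith [mul_le_mul_of_nonneg_left hNr hWr.le]
  where
  le_of_sq_le_sq {a b : ℝ} (h : a ^ 2 ≤ b ^ 2) (hb : 0 ≤ b) : a ≤ b := by
    by_contra hc
    push Not at hc
    nlinarith

theorem mom_hasSum {g : ℂ → ℂ} (hg : NB g) {D W tn td : ℤ} (hD : 0 < D) (hW : 0 < W)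
    (htd : 0 < td) (htn : 0 ≤ tn) (htt : tn < td) (L : List CPt) (h : allOK D tn td L = true) :
    ∃ s ≤ (sumN L : ℝ) / W, HasSum (fun k => mom D W L k * (cf g k).re) s := by
  induction L with
  | nil =>
    refine ⟨0, by simp [sumN], ?_⟩
    have : (fun k => mom D W [] k * (cf g k).re) = fun _ => 0 := by
      funext k
      simp [mom, stepL_iter_nil, sumU]
    rw [this]
    exact hasSum_zero
  | cons p L ih =>
    simp only [allOK, Bool.and_eq_true] at h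
    obtain ⟨s, hs, hsum⟩ := ih h.2
    obtain ⟨e1, e2, e3⟩ := ptOK_spec (W := W) hD hW htd htn htt h.1
    have htdr : (0 : ℝ) < td := by exact_mod_cast htd
    have htt' : (tn : ℝ) / td < 1 := by
      rw [div_lt_one htdr]
      exact_mod_cast htt
    obtain ⟨s', hs', hsum'⟩ := ptSum hg (e1.trans_lt htt') e3
    refine ⟨s' + s, ?_, ?_⟩
    · simp only [sumN]
      push_cast
      rw [add_div]
      linarith
    · refine (hsum'.add hsum).congr_fun fun k => ?_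
      rw [mom_cons]
      ring

theorem mom_tail {D W tn td : ℤ} (hD : 0 < D) (hW : 0 < W)
    (htd : 0 < td) (htn : 0 ≤ tn) (htt : tn < td) (h : ℕ) (L : List CPt)
    (hL : allOK D tn td L = true) (j : ℕ) :
    |mom D W L (j + (2 * h + 1))| ≤
      ((tn : ℝ) / td) ^ (j + 1) * ((sumT h L : ℝ) / ((W : ℝ) * (D : ℝ) ^ (2 * h))) := by
  have hDr : (0 : ℝ) < D := by exact_mod_cast hD
  have hWr : (0 : ℝ) < W := by exact_mod_cast hW
  have htdr : (0 : ℝ) < td := by exact_mod_cast htd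
  have htnr : (0 : ℝ) ≤ tn := by exact_mod_cast htn
  induction L with
  | nil => simp [mom, stepL_iter_nil, sumU, sumT]
  | cons p L ih =>
    simp only [allOK, Bool.and_eq_true] at hL
    obtain ⟨e1, e2, e3⟩ := ptOK_spec (W := W) hD hW htd htn htt hL.1
    have ih' := ih hL.2
    rw [mom_cons]
    refine (abs_add_le _ _).trans ?_
    have e4 : |(p.w W * p.z D ^ (j + (2 * h + 1))).re| ≤
        ((tn : ℝ) / td) ^ (j + 1) *
          (((p.M * (p.X * p.X + p.Y * p.Y) ^ h : ℤ) : ℝ) / ((W : ℝ) * (D : ℝ) ^ (2 * h))) := by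
      refine (Complex.abs_re_le_norm _).trans ?_
      rw [norm_mul, norm_pow]
      have e5 : ‖p.z D‖ ^ (j + (2 * h + 1)) = ‖p.z D‖ ^ (j + 1) * (‖p.z D‖ ^ 2) ^ h := by
        rw [← pow_mul, ← pow_add]
        congr 1
        ring
      rw [e5, CPt.norm_z]
      have e6 : ‖p.z D‖ ^ (j + 1) ≤ ((tn : ℝ) / td) ^ (j + 1) :=
        pow_le_pow_left₀ (norm_nonneg _) e1 _
      have e7 : (0 : ℝ) ≤ (((p.X : ℝ) ^ 2 + (p.Y : ℝ) ^ 2) / (D : ℝ) ^ 2) ^ h := by positivity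
      calc ‖p.w W‖ * (‖p.z D‖ ^ (j + 1) * (((p.X : ℝ) ^ 2 + (p.Y : ℝ) ^ 2) / (D : ℝ) ^ 2) ^ h)
          ≤ ((p.M : ℝ) / W) * (((tn : ℝ) / td) ^ (j + 1)
              * (((p.X : ℝ) ^ 2 + (p.Y : ℝ) ^ 2) / (D : ℝ) ^ 2) ^ h) := by
            apply mul_le_mul e2 _ (by positivity) ((norm_nonneg _).trans e2)
            exact mul_le_mul_of_nonneg_right e6 e7
        _ = _ := by
            push_cast
            rw [div_pow (((p.X : ℝ) ^ 2 + (p.Y : ℝ) ^ 2)), ← pow_mul, sq, sq]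
            field_simp
    simp only [sumT]
    push_cast at e4 ⊢
    rw [add_div, mul_add]
    exact add_le_add e4 ih'

theorem loop_sound {D T : ℤ} {num den : ℕ → ℤ} (hD : 0 < D) (hT : 0 < T) (hden : ∀ k, 0 < den k) :
    ∀ (fuel k : ℕ) (Wk : ℤ) (L : List CPt), 0 < Wk → loop D T num den fuel k Wk L = true →
      ∀ j < fuel, |(num (k + j) : ℝ) / den (k + j)
        + (sumU ((stepL^[j]) L) : ℝ) / ((Wk : ℝ) * (D : ℝ) ^ j)| ≤ 1 / T := by
  intro fuel
  induction fuel with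
  | zero => intro k Wk L _ _ j hj; omega
  | succ n ih =>
    intro k Wk L hWk h j hj
    simp only [loop, Bool.and_eq_true, decide_eq_true_eq] at h
    obtain ⟨⟨h1, h2⟩, h3⟩ := h
    rcases Nat.eq_zero_or_pos j with rfl | hj0
    · have hTr : (0 : ℝ) < T := by exact_mod_cast hT
      have hWr : (0 : ℝ) < Wk := by exact_mod_cast hWk
      have hdr : (0 : ℝ) < den k := by exact_mod_cast hden k
      have h1r : ((num k : ℝ) * Wk + sumU L * den k) * T ≤ den k * Wk := by exact_mod_cast h1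
      have h2r : -((den k : ℝ) * Wk) ≤ (num k * Wk + sumU L * den k) * T := by exact_mod_cast h2
      simp only [add_zero, Function.iterate_zero, id, pow_zero, mul_one]
      have e : (num k : ℝ) / den k + (sumU L : ℝ) / Wk
          = (num k * Wk + sumU L * den k) / (den k * Wk) := by
        field_simp
      rw [e, abs_le]
      constructor
      · rw [← neg_div, div_le_div_iff₀ hTr (by positivity)]
        linarith
      · rw [div_le_div_iff₀ (by positivity) hTr]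
        linarith
    · obtain ⟨i, rfl⟩ : ∃ i, j = i + 1 := ⟨j - 1, by omega⟩
      have h4 := ih (k + 1) (Wk * D) (stepL L) (by positivity) h3 i (by omega)
      have e1 : k + (i + 1) = k + 1 + i := by ring
      rw [e1, Function.iterate_succ_apply]
      have e2 : (Wk : ℝ) * (D : ℝ) ^ (i + 1) = ((Wk * D : ℤ) : ℝ) * (D : ℝ) ^ i := by
        push_cast
        ring
      rw [e2]
      exact h4

theorem cert_main {g : ℂ → ℂ} (hg : NB g) {num den : ℕ → ℤ} {L : List CPt} {sv st : ℤ}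
    (hden : ∀ k, 0 < den k) (hc : fullCheck num den L sv st = true) {δ : ℝ}
    (hδ : ∀ j : ℕ, |(num (j + 73) : ℝ) / den (j + 73)| ≤ δ * (8701 / 10000) ^ j)
    {Φ : ℝ} (hΦ : HasSum (fun k => ((num k : ℝ) / den k) * (cf g k).re) Φ) :
    (num 0 : ℝ) / den 0 + sv / 10 ^ 7
      - (1 / 10 ^ 8 + 869 * (δ + (8701 / 10000) * (st / 10 ^ 12))) ≤ Φ := by
  simp only [fullCheck, Bool.and_eq_true, decide_eq_true_eq] at hc
  obtain ⟨hl, ha, hs, ht⟩ := hc
  obtain ⟨D, hDd⟩ : ∃ D : ℤ, D = 2 ^ 20 := ⟨_, rfl⟩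
  obtain ⟨W, hWd⟩ : ∃ W : ℤ, W = 2 ^ 100 := ⟨_, rfl⟩
  obtain ⟨T, hTd⟩ : ∃ T : ℤ, T = 10 ^ 12 := ⟨_, rfl⟩
  rw [← hDd, ← hWd] at ht
  rw [← hWd] at hs
  rw [← hDd] at ha
  rw [← hDd, ← hWd, ← hTd] at hl
  have hD : (0 : ℤ) < D := by rw [hDd]; norm_num
  have hW : (0 : ℤ) < W := by rw [hWd]; norm_num
  have hT : (0 : ℤ) < T := by rw [hTd]; norm_num
  have hDr : (0 : ℝ) < D := by exact_mod_cast hD
  have hWr : (0 : ℝ) < W := by exact_mod_cast hW
  have hTr : (T : ℝ) = 10 ^ 12 := by rw [hTd]; norm_num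
  obtain ⟨S, hS, hSsum⟩ := mom_hasSum hg hD hW (by norm_num) (by norm_num) (by norm_num) L ha
  have hδ0 : 0 ≤ δ := by
    have := (abs_nonneg _).trans (hδ 0)
    simpa using this
  -- the function b
  set b : ℕ → ℝ := fun k => (num k : ℝ) / den k + mom D W L k with hb
  have hsum : HasSum (fun k => b k * (cf g k).re) (Φ + S) := by
    refine (hΦ.add hSsum).congr_fun fun k => ?_
    rw [hb]
    ring
  have h1 : ∀ k, 2 ≤ k → k ≤ 72 → |b k| ≤ 1 / 10 ^ 12 := by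
    intro k hk2 hk
    obtain ⟨j, rfl⟩ : ∃ j, k = 2 + j := ⟨k - 2, by omega⟩
    have h3 := loop_sound hD hT hden 71 2 (W * D ^ 2) (stepL (stepL L))
      (by positivity) hl j (by omega)
    have e1 : (stepL^[j]) (stepL (stepL L)) = (stepL^[2 + j]) L := by
      rw [Nat.add_comm, Function.iterate_add_apply]
      rfl
    rw [e1, hTr] at h3
    have e2 : b (2 + j) = (num (2 + j) : ℝ) / den (2 + j)
        + (sumU ((stepL^[2 + j]) L) : ℝ) / (((W * D ^ 2 : ℤ) : ℝ) * (D : ℝ) ^ j) := by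
      rw [hb]
      simp only [mom]
      congr 2
      push_cast
      ring
    rw [e2]
    exact h3
  have h4 : (sumT 36 L : ℝ) / ((W : ℝ) * (D : ℝ) ^ (2 * 36)) ≤ st / 10 ^ 12 := by
    have ht' : (sumT 36 L : ℝ) * 10 ^ 12 ≤ st * (W * D ^ 72) := by exact_mod_cast ht
    rw [div_le_div_iff₀ (by positivity) (by positivity)]
    exact ht'
  have h2 : ∀ j, |b (j + (72 + 1))| ≤ (δ + (8701 / 10000) * (st / 10 ^ 12)) * (8701 / 10000) ^ j := by
    intro j
    have h3 := mom_tail hD hW (tn := 8701) (td := 10000) (by norm_num) (by norm_num) (by norm_num)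
      36 L ha j
    have h5 : |b (j + (72 + 1))| ≤ |(num (j + 73) : ℝ) / den (j + 73)|
        + |mom D W L (j + (2 * 36 + 1))| := abs_add_le _ _
    have h6 : ((8701 : ℤ) : ℝ) / ((10000 : ℤ) : ℝ) = 8701 / 10000 := by norm_num
    rw [h6] at h3
    have h7 : ((8701 : ℝ) / 10000) ^ (j + 1) * ((sumT 36 L : ℝ) / ((W : ℝ) * (D : ℝ) ^ (2 * 36)))
        ≤ ((8701 : ℝ) / 10000) ^ (j + 1) * (st / 10 ^ 12) :=
      mul_le_mul_of_nonneg_left h4 (by positivity)
    have h8 := hδ j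
    calc |b (j + (72 + 1))| ≤ _ := h5
      _ ≤ δ * (8701 / 10000) ^ j + (8701 / 10000) ^ (j + 1) * (st / 10 ^ 12) :=
          add_le_add h8 (h3.trans h7)
      _ = _ := by ring
  have hT1 : 0 ≤ δ + (8701 / 10000 : ℝ) * (st / 10 ^ 12) := by
    have := (abs_nonneg _).trans (h2 0)
    simpa using this
  have key := certA hg (q := 197 / 200) (t := 8701 / 10000) (by norm_num) (by norm_num)
    (by norm_num) (by norm_num) 72 (by norm_num) b h1 h2 hsum
  have hb0 : b 0 = (num 0 : ℝ) / den 0 + (sumU L : ℝ) / W := by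
    rw [hb]
    simp [mom]
  have hs' : (sv : ℝ) * W ≤ (sumU L - sumN L) * 10 ^ 7 := by exact_mod_cast hs
  have h9 : (sv : ℝ) / 10 ^ 7 ≤ (sumU L : ℝ) / W - (sumN L : ℝ) / W := by
    rw [← sub_div, div_le_div_iff₀ (by positivity) (by positivity)]
    exact hs'
  have h10 : ((72 : ℕ) : ℝ) * (1 / 10 ^ 12 / ((1 - (197 / 200) ^ 2) * (197 / 200) ^ 72))
      ≤ 1 / 10 ^ 8 := by norm_num
  have h11 : (δ + (8701 / 10000 : ℝ) * (st / 10 ^ 12))
      / ((1 - (197 / 200) ^ 2) * (197 / 200) ^ (72 + 1) * (1 - 8701 / 10000 / (197 / 200)))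
      ≤ 869 * (δ + (8701 / 10000 : ℝ) * (st / 10 ^ 12)) := by
    rw [div_le_iff₀ (by norm_num)]
    have h12 : (1 : ℝ) ≤ 869 * ((1 - (197 / 200) ^ 2) * (197 / 200) ^ (72 + 1)
        * (1 - 8701 / 10000 / (197 / 200))) := by norm_num
    nlinarith
  linarith

end Pool.Agent.Helper92.Bloch
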