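import Mathlib
import Pool.Agent.Helper92.Bloch.Arcs

set_option autoImplicit false

namespace Pool.Agent.Helper92.Bloch

open Complex

theorem unit_sq {u : ℂ} (hu : ‖u‖ = 1) : u.re ^ 2 + |u.im| ^ 2 = 1 := by
  have h := Complex.normSq_apply u
  rw [Complex.normSq_eq_norm_sq, hu] at h
  rw [sq_abs]
  nlinarith

theorem unit_mk {C S : ℝ} (h : C ^ 2 + S ^ 2 = 1) : ‖(⟨C, S⟩ : ℂ)‖ = 1 := by
  have h1 : ‖(⟨C, S⟩ : ℂ)‖ ^ 2 = 1 := by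
    rw [← Complex.normSq_eq_norm_sq, Complex.normSq_mk]
    nlinarith
  nlinarith [norm_nonneg (⟨C, S⟩ : ℂ)]

theorem dir {Ψ : ℂ → ℝ} {C S thr CK V : ℝ} (hCS : C ^ 2 + S ^ 2 = 1)
    (ht : ∀ p : ℂ, ‖p‖ = 1 → thr ≤ p.re → Ψ p ≤ Ψ 1 + CK * (1 - p.re))
    (hp : ∀ p : ℂ, ‖p‖ = 1 → V ≤ Ψ p + Ψ (p * ⟨C, S⟩)) {u : ℂ} (hu : ‖u‖ = 1)
    (h : thr ≤ u.re * C + |u.im| * S) :
    V - Ψ 1 - CK * (1 - (u.re * C + |u.im| * S)) ≤ Ψ u := by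
  have hw : ‖(⟨C, S⟩ : ℂ)‖ = 1 := unit_mk hCS
  have hw' : ‖(⟨C, -S⟩ : ℂ)‖ = 1 := unit_mk (by nlinarith)
  rcases le_total 0 u.im with h0 | h0
  · rw [abs_of_nonneg h0] at h ⊢
    have e1 : (u * (⟨C, -S⟩ : ℂ)).re = u.re * C + u.im * S := by
      simp [Complex.mul_re]
    have hun : ‖u * (⟨C, -S⟩ : ℂ)‖ = 1 := by rw [norm_mul, hu, hw', one_mul]
    have e2 : u * (⟨C, -S⟩ : ℂ) * ⟨C, S⟩ = u := by
      rw [mul_assoc]
      have : (⟨C, -S⟩ : ℂ) * ⟨C, S⟩ = 1 := by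
        apply Complex.ext
        · simp [Complex.mul_re]
          nlinarith
        · simp [Complex.mul_im]
          ring
      rw [this, mul_one]
    have h1 := ht _ hun (by rw [e1]; exact h)
    have h2 := hp _ hun
    rw [e2] at h2
    rw [e1] at h1
    linarith
  · rw [abs_of_nonpos h0] at h ⊢
    have e1 : (u * (⟨C, S⟩ : ℂ)).re = u.re * C + -u.im * S := by
      simp [Complex.mul_re]
      ring
    have hun : ‖u * (⟨C, S⟩ : ℂ)‖ = 1 := by rw [norm_mul, hu, hw, one_mul]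
    have h1 := ht _ hun (by rw [e1]; exact h)
    have h2 := hp _ hu
    rw [e1] at h1
    linarith

theorem arcUse {Ψ : ℂ → ℝ} {C S thr CK V : ℝ}
    (he0 : 43301 / 100000 ≤ Ψ 1) (he1 : Ψ 1 ≤ 43301 / 100000 + 351 / 25000)
    (hCS : C ^ 2 + S ^ 2 = 1)
    (ht : ∀ p : ℂ, ‖p‖ = 1 → thr ≤ p.re → Ψ p ≤ Ψ 1 + CK * (1 - p.re))
    (hp : ∀ p : ℂ, ‖p‖ = 1 → V ≤ Ψ p + Ψ (p * ⟨C, S⟩)) {u : ℂ} (hu : ‖u‖ = 1)
    (h : ArcP C S thr CK V u.re |u.im|) :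
    44705 / 100000 ≤ Ψ u
      + ((43301 / 100000 + 351 / 25000 - Ψ 1) * (1241 / 1209)) * u.re := by
  obtain ⟨h1, h2, h3⟩ := h
  have h4 := dir hCS ht hp hu h1
  set s := u.re * C + |u.im| * S with hs
  set e := Ψ 1 - 43301 / 100000 with he
  have he0' : 0 ≤ e := by rw [he]; linarith
  have he1' : 0 ≤ 351 / 25000 - e := by rw [he]; linarith
  have hΨ : Ψ 1 = e + 43301 / 100000 := by rw [he]; ring
  rw [hΨ] at h4
  have e1 : (43301 / 100000 + 351 / 25000 - Ψ 1) = 351 / 25000 - e := by rw [he]; ring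
  rw [e1]
  have m1 := mul_nonneg he0' (sub_nonneg.2 h2)
  have m2 := mul_nonneg he1' (sub_nonneg.2 h3)
  nlinarith

theorem cover (Ψ : ℂ → ℝ) (hmin : ∀ u : ℂ, ‖u‖ = 1 → Ψ 1 ≤ Ψ u)
    (he0 : 43301 / 100000 ≤ Ψ 1)
    (ht1 : ∀ p : ℂ, ‖p‖ = 1 → 99 / 100 ≤ p.re →
      Ψ p ≤ Ψ 1 + ((151337 / 100000) * (5013 / 5000)) * (1 - p.re))
    (ht2 : ∀ p : ℂ, ‖p‖ = 1 → 91 / 100 ≤ p.re →
      Ψ p ≤ Ψ 1 + ((151337 / 100000) * (5117 / 5000)) * (1 - p.re))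
    (hp0 : ∀ p : ℂ, ‖p‖ = 1 → 8957526 / 10000000 ≤ Ψ p + Ψ (p * ⟨(-1), 0⟩))
    (hp1 : ∀ p : ℂ, ‖p‖ = 1 → 8960886 / 10000000 ≤ Ψ p + Ψ (p * ⟨(-1437599 / 1442401), (117600 / 1442401)⟩))
    (hp2 : ∀ p : ℂ, ‖p‖ = 1 → 8969266 / 10000000 ≤ Ψ p + Ψ (p * ⟨(-69167 / 70225), (12144 / 70225)⟩))
    (hp3 : ∀ p : ℂ, ‖p‖ = 1 → 8981986 / 10000000 ≤ Ψ p + Ψ (p * ⟨(-6887 / 7225), (2184 / 7225)⟩))
    (hp4 : ∀ p : ℂ, ‖p‖ = 1 → 9046386 / 10000000 ≤ Ψ p + Ψ (p * ⟨(-3713 / 4225), (2016 / 4225)⟩))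
    (hp5 : ∀ p : ℂ, ‖p‖ = 1 → 9177696 / 10000000 ≤ Ψ p + Ψ (p * ⟨(-119 / 169), (120 / 169)⟩))
    (hp6 : ∀ p : ℂ, ‖p‖ = 1 → 9384546 / 10000000 ≤ Ψ p + Ψ (p * ⟨(-1241 / 2809), (2520 / 2809)⟩))
    (hp7 : ∀ p : ℂ, ‖p‖ = 1 → 9797746 / 10000000 ≤ Ψ p + Ψ (p * ⟨(41 / 841), (840 / 841)⟩))
    (hp8 : ∀ p : ℂ, ‖p‖ = 1 → 10167396 / 10000000 ≤ Ψ p + Ψ (p * ⟨(4633 / 7225), (5544 / 7225)⟩))
    (hp9 : ∀ p : ℂ, ‖p‖ = 1 → 9221726 / 10000000 ≤ Ψ p + Ψ (p * ⟨(9401 / 10201), (3960 / 10201)⟩)) :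
    ∃ κ : ℝ, 0 ≤ κ ∧ κ ≤ 1 / 10 ∧ ∀ u : ℂ, ‖u‖ = 1 → 44705 / 100000 ≤ Ψ u + κ * u.re := by
  rcases le_total (43301 / 100000 + 351 / 25000) (Ψ 1) with h | he1
  · refine ⟨0, le_rfl, by norm_num, fun u hu => ?_⟩
    have := hmin u hu
    rw [zero_mul, add_zero]
    linarith
  · refine ⟨(43301 / 100000 + 351 / 25000 - Ψ 1) * (1241 / 1209), ?_, ?_, fun u hu => ?_⟩
    · apply mul_nonneg _ (by norm_num)
      linarith
    · linarith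
    · have hXY := unit_sq hu
      have hlo : -1 ≤ u.re := by nlinarith [sq_nonneg |u.im|]
      rcases le_total u.re (1209 / 1241) with hX | hX
      swap
      · have h1 := hmin u hu
        have h2 : 0 ≤ (43301 / 100000 + 351 / 25000 - Ψ 1) * (u.re - 1209 / 1241) :=
          mul_nonneg (by linarith) (by linarith)
        nlinarith
      rcases le_total u.re (-24989391 / 25010609) with h0 | h0
      · exact arcUse he0 he1 (by norm_num) (ht1) hp0 hu (arc0 hXY (abs_nonneg _) hlo h0)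
      rcases le_total u.re (-1555939 / 1569061) with h1 | h1
      · exact arcUse he0 he1 (by norm_num) (ht1) hp1 hu (arc1 hXY (abs_nonneg _) h0 h1)
      rcases le_total u.re (-98609959 / 101390041) with h2 | h2
      · exact arcUse he0 he1 (by norm_num) (ht1) hp2 hu (arc2 hXY (abs_nonneg _) h1 h2)
      rcases le_total u.re (-24072631 / 25927369) with h3 | h3
      · exact arcUse he0 he1 (by norm_num) (ht1) hp3 hu (arc3 hXY (abs_nonneg _) h2 h3)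
      rcases le_total u.re (-89906671 / 110093329) with h4 | h4
      · exact arcUse he0 he1 (by norm_num) (ht1) hp4 hu (arc4 hXY (abs_nonneg _) h3 h4)
      rcases le_total u.re (-2903791 / 5096209) with h5 | h5
      · exact arcUse he0 he1 (by norm_num) (ht2) hp5 hu (arc5 hXY (abs_nonneg _) h4 h5)
      rcases le_total u.re (-35535159 / 164464841) with h6 | h6
      · exact arcUse he0 he1 (by norm_num) (ht2) hp6 hu (arc6 hXY (abs_nonneg _) h5 h6)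
      rcases le_total u.re (119306481 / 319306481) with h7 | h7
      · exact arcUse he0 he1 (by norm_num) (ht2) hp7 hu (arc7 hXY (abs_nonneg _) h6 h7)
      rcases le_total u.re (100851801 / 113351801) with h8 | h8
      · exact arcUse he0 he1 (by norm_num) (ht2) hp8 hu (arc8 hXY (abs_nonneg _) h7 h8)
      exact arcUse he0 he1 (by norm_num) (ht2) hp9 hu (arc9 hXY (abs_nonneg _) h8 hX)

end Pool.Agent.Helper92.Bloch
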