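import Mathlib
import Pool.Agent.Helper92.Bloch.Basic
import Pool.Agent.Helper92.Bloch.Cert

set_option autoImplicit false

namespace Pool.Agent.Helper92.Bloch

open Metric Complex

theorem gpow_spec (a b : ℤ) (k : ℕ) :
    (((gpow a b k).1 : ℂ)) + ((gpow a b k).2 : ℂ) * I = ((a : ℂ) + (b : ℂ) * I) ^ k := by
  induction k with
  | zero => simp [gpow]
  | succ k ih =>
    rw [pow_succ, ← ih]
    simp only [gpow]
    push_cast
    ring_nf
    rw [Complex.I_sq]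
    ring

theorem gpow_re (a b : ℤ) (k : ℕ) : ((gpow a b k).1 : ℝ) = (((a : ℂ) + (b : ℂ) * I) ^ k).re := by
  rw [← gpow_spec]
  have e1 : (((gpow a b k).1 : ℂ)) = (((gpow a b k).1 : ℝ) : ℂ) := by push_cast; rfl
  have e2 : (((gpow a b k).2 : ℂ)) = (((gpow a b k).2 : ℝ) : ℂ) := by push_cast; rfl
  rw [e1, e2]
  simp

/-- the value of the pair functional -/
theorem pair_hasSum {f g : ℂ → ℂ} (hf : Prim f g) {r : ℝ} (hr0 : 0 ≤ r) (hr1 : r < 1) {u : ℂ}
    (hu : ‖u‖ = 1) :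
    HasSum (fun k : ℕ => (2 * (u ^ k).re * r ^ (k + 1) / (k + 1)) * (cf g k).re)
      (((starRingEnd ℂ) u * f (r * u)).re + (u * f (r * (starRingEnd ℂ) u)).re) := by
  have huu : (starRingEnd ℂ) u * u = 1 := by
    rw [mul_comm, Complex.mul_conj, Complex.normSq_eq_norm_sq, hu]
    norm_num
  have hr : ‖(r : ℂ)‖ = r := by rw [Complex.norm_real, Real.norm_eq_abs, abs_of_nonneg hr0]
  have n1 : ‖(r : ℂ) * u‖ < 1 := by rw [norm_mul, hu, hr, mul_one]; exact hr1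
  have n2 : ‖(r : ℂ) * (starRingEnd ℂ) u‖ < 1 := by
    rw [norm_mul, RCLike.norm_conj, hu, hr, mul_one]; exact hr1
  have h1 := (hf.hasSum n1).mul_left ((starRingEnd ℂ) u)
  have h2 := (hf.hasSum n2).mul_left u
  have h3 := Complex.reCLM.hasSum (h1.add h2)
  simp only [Complex.reCLM_apply, Complex.add_re] at h3
  refine h3.congr_fun fun k => ?_
  have e1 : (starRingEnd ℂ) u * (cf g k * (r * u) ^ (k + 1) / (k + 1))
      + u * (cf g k * (r * (starRingEnd ℂ) u) ^ (k + 1) / (k + 1))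
      = ((2 * (u ^ k).re * r ^ (k + 1) / (k + 1) : ℝ) : ℂ) * cf g k := by
    have e2 : (((u ^ k).re : ℝ) : ℂ) = (u ^ k + (starRingEnd ℂ) (u ^ k)) / 2 :=
      Complex.re_eq_add_conj _
    push_cast
    rw [e2, map_pow, mul_pow, mul_pow, pow_succ u, pow_succ ((starRingEnd ℂ) u)]
    have e3 : (starRingEnd ℂ) u * (cf g k * (↑r ^ (k + 1) * (u ^ k * u)) / (↑k + 1))
        = ((starRingEnd ℂ) u * u) * (cf g k * (↑r ^ (k + 1) * u ^ k) / (↑k + 1)) := by ring
    have e4 : u * (cf g k * (↑r ^ (k + 1) * ((starRingEnd ℂ) u ^ k * (starRingEnd ℂ) u)) / (↑k + 1))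
        = ((starRingEnd ℂ) u * u) * (cf g k * (↑r ^ (k + 1) * (starRingEnd ℂ) u ^ k) / (↑k + 1)) := by
      ring
    rw [e3, e4, huu]
    ring
  have e5 : ((starRingEnd ℂ) u * (cf g k * (r * u) ^ (k + 1) / (k + 1))).re
      + (u * (cf g k * (r * (starRingEnd ℂ) u) ^ (k + 1) / (k + 1))).re
      = (2 * (u ^ k).re * r ^ (k + 1) / (k + 1)) * (cf g k).re := by
    rw [← Complex.add_re, e1, Complex.re_ofReal_mul]
  exact e5.symm

theorem pair_cert {f g : ℂ → ℂ} (hg : NB g) (hf : Prim f g) {a b c : ℤ} (hc : 0 < c)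
    (habc : a ^ 2 + b ^ 2 = c ^ 2) {L : List CPt} {sv st : ℤ}
    (hchk : fullCheck (nmP a b) (dnP c) L sv st = true) {u : ℂ}
    (hu : u = ((a : ℂ) + (b : ℂ) * I) / (c : ℂ)) :
    1154 / 1000 + (sv : ℝ) / 10 ^ 7
        - (1 / 10 ^ 8 + 869 * (1 / 10 ^ 12 + (8701 / 10000) * (st / 10 ^ 12)))
      ≤ ((starRingEnd ℂ) u * f ((577 / 1000 : ℝ) * u)).re
        + (u * f ((577 / 1000 : ℝ) * (starRingEnd ℂ) u)).re := by
  have hcr : (0 : ℝ) < c := by exact_mod_cast hc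
  have hun : ‖u‖ = 1 := by
    have h1 : ‖u‖ ^ 2 = 1 := by
      have e : u = ((a : ℝ) + (b : ℝ) * I) / ((c : ℝ) : ℂ) := by rw [hu]; push_cast; rfl
      rw [e, norm_div, div_pow, norm_mk, Complex.norm_real, Real.norm_eq_abs, sq_abs]
      have : (a : ℝ) ^ 2 + (b : ℝ) ^ 2 = (c : ℝ) ^ 2 := by exact_mod_cast habc
      rw [this]
      field_simp
    nlinarith [norm_nonneg u]
  have hre : ∀ k : ℕ, (u ^ k).re = ((gpow a b k).1 : ℝ) / (c : ℝ) ^ k := by
    intro k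
    rw [gpow_re, hu, div_pow]
    have e : ((c : ℂ) ^ k) = (((c : ℝ) ^ k : ℝ) : ℂ) := by push_cast; rfl
    rw [e, Complex.div_ofReal_re]
  have hnum : ∀ k : ℕ, (nmP a b k : ℝ) / dnP c k
      = 2 * (u ^ k).re * (577 / 1000 : ℝ) ^ (k + 1) / (k + 1) := by
    intro k
    rw [hre]
    simp only [nmP, dnP]
    push_cast
    rw [div_pow]
    field_simp
  have hsum := pair_hasSum hf (r := 577 / 1000) (by norm_num) (by norm_num) hun
  have hsum' : HasSum (fun k : ℕ => ((nmP a b k : ℝ) / dnP c k) * (cf g k).re)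
      (((starRingEnd ℂ) u * f ((577 / 1000 : ℝ) * u)).re
        + (u * f ((577 / 1000 : ℝ) * (starRingEnd ℂ) u)).re) := by
    refine hsum.congr_fun fun k => ?_
    rw [hnum]
  have hden : ∀ k, 0 < dnP c k := by
    intro k
    unfold dnP
    positivity
  have hδ : ∀ j : ℕ, |(nmP a b (j + 73) : ℝ) / dnP c (j + 73)|
      ≤ (1 / 10 ^ 12 : ℝ) * (8701 / 10000) ^ j := by
    intro j
    rw [hnum, abs_div, abs_mul, abs_mul]
    have h1 : |(u ^ (j + 73)).re| ≤ 1 := by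
      refine (Complex.abs_re_le_norm _).trans ?_
      rw [norm_pow, hun, one_pow]
    have h2 : (1 : ℝ) ≤ |(((j + 73 : ℕ) : ℝ) + 1)| := by
      rw [abs_of_nonneg (by positivity)]
      push_cast
      linarith [Nat.cast_nonneg (α := ℝ) j]
    have h3 : |(577 / 1000 : ℝ) ^ (j + 73 + 1)| = (577 / 1000) ^ 74 * (577 / 1000) ^ j := by
      rw [abs_of_nonneg (by positivity), ← pow_add]
      congr 1
      omega
    rw [h3, abs_two]
    have h4 : (577 / 1000 : ℝ) ^ j ≤ (8701 / 10000) ^ j :=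
      pow_le_pow_left₀ (by norm_num) (by norm_num) _
    have h5 : (2 : ℝ) * (577 / 1000) ^ 74 ≤ 1 / 10 ^ 12 := by norm_num
    refine (div_le_self (by positivity) h2).trans ?_
    calc 2 * |(u ^ (j + 73)).re| * ((577 / 1000) ^ 74 * (577 / 1000 : ℝ) ^ j)
        ≤ 2 * 1 * ((577 / 1000) ^ 74 * (577 / 1000 : ℝ) ^ j) := by
          apply mul_le_mul_of_nonneg_right _ (by positivity)
          linarith
      _ = (2 * (577 / 1000) ^ 74) * (577 / 1000 : ℝ) ^ j := by ring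
      _ ≤ (1 / 10 ^ 12) * (8701 / 10000) ^ j :=
          mul_le_mul h5 h4 (by positivity) (by positivity)
  have key := cert_main hg hden hchk hδ hsum'
  have h0 : (nmP a b 0 : ℝ) / dnP c 0 = 1154 / 1000 := by
    rw [hnum]
    norm_num
  rw [h0] at key
  exact key

theorem sec_hasSum {f g g' : ℂ → ℂ} (hg : NB g) (hf : Prim f g)
    (hg' : ∀ z ∈ ball (0 : ℂ) 1, HasDerivAt g (g' z) z) {r : ℝ} (hr0 : 0 ≤ r) (hr1 : r < 1) :
    HasSum (fun k : ℕ => ((k : ℝ) ^ 2 * r ^ (k + 1) / (k + 1)) * (cf g k).re)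
      (f r - r * g r + r ^ 2 * g' r).re := by
  have hr : ‖(r : ℂ)‖ < 1 := by rwa [Complex.norm_real, Real.norm_eq_abs, abs_of_nonneg hr0]
  have hg'd : DifferentiableOn ℂ g' (ball 0 1) := by
    have h1 : DifferentiableOn ℂ (deriv g) (ball 0 1) := hg.diff.deriv isOpen_ball
    exact h1.congr fun z hz => ((hg' z hz).deriv).symm
  have h1 := hf.hasSum hr
  have h2 := (hasSum_cf hg.diff hr).mul_left (r : ℂ)
  have h3 := (hasSum_cf hg'd hr).mul_left ((r : ℂ) ^ 2)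
  have h4 : HasSum (fun k : ℕ => (k : ℂ) * cf g k * (r : ℂ) ^ (k + 1)) ((r : ℂ) ^ 2 * g' r) := by
    rw [← hasSum_nat_add_iff' 1]
    simp only [Finset.range_one, Finset.sum_singleton, Nat.cast_zero, zero_mul, sub_zero]
    refine h3.congr_fun fun k => ?_
    rw [cf_deriv hg']
    push_cast
    ring
  have h5 := Complex.reCLM.hasSum ((h1.sub h2).add h4)
  simp only [Complex.reCLM_apply] at h5
  refine h5.congr_fun fun k => ?_
  have hk : ((k : ℂ) + 1) ≠ 0 := by exact_mod_cast Nat.succ_ne_zero k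
  have e : cf g k * (r : ℂ) ^ (k + 1) / (k + 1) - (r : ℂ) * (cf g k * (r : ℂ) ^ k)
      + (k : ℂ) * cf g k * (r : ℂ) ^ (k + 1)
      = (((k : ℝ) ^ 2 * r ^ (k + 1) / (k + 1) : ℝ) : ℂ) * cf g k := by
    push_cast
    field_simp
    ring
  rw [e, Complex.re_ofReal_mul]

theorem sec_cert {f g g' : ℂ → ℂ} (hg : NB g) (hf : Prim f g)
    (hg' : ∀ z ∈ ball (0 : ℂ) 1, HasDerivAt g (g' z) z) {L : List CPt} {sv st : ℤ}
    (hchk : fullCheck nmS dnS L sv st = true) :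
    (sv : ℝ) / 10 ^ 7
        - (1 / 10 ^ 8 + 869 * (1 / 10 ^ 12 + (8701 / 10000) * (st / 10 ^ 12)))
      ≤ (f ((577 / 1000 : ℝ) : ℂ) - ((577 / 1000 : ℝ) : ℂ) * g ((577 / 1000 : ℝ) : ℂ)
        + ((577 / 1000 : ℝ) : ℂ) ^ 2 * g' ((577 / 1000 : ℝ) : ℂ)).re := by
  have hsum := sec_hasSum hg hf hg' (r := 577 / 1000) (by norm_num) (by norm_num)
  have hnum : ∀ k : ℕ, (nmS k : ℝ) / dnS k
      = (k : ℝ) ^ 2 * (577 / 1000 : ℝ) ^ (k + 1) / (k + 1) := by
    intro k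
    simp only [nmS, dnS]
    push_cast
    rw [div_pow]
    field_simp
  have hsum' : HasSum (fun k : ℕ => ((nmS k : ℝ) / dnS k) * (cf g k).re)
      (f ((577 / 1000 : ℝ) : ℂ) - ((577 / 1000 : ℝ) : ℂ) * g ((577 / 1000 : ℝ) : ℂ)
        + ((577 / 1000 : ℝ) : ℂ) ^ 2 * g' ((577 / 1000 : ℝ) : ℂ)).re := by
    refine hsum.congr_fun fun k => ?_
    rw [hnum]
  have hden : ∀ k, 0 < dnS k := by
    intro k
    unfold dnS
    positivity
  have hδ : ∀ j : ℕ, |(nmS (j + 73) : ℝ) / dnS (j + 73)|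
      ≤ (1 / 10 ^ 12 : ℝ) * (8701 / 10000) ^ j := by
    intro j
    rw [hnum, abs_of_nonneg (by positivity)]
    set k : ℕ := j + 73 with hk
    -- k ≤ 26 * (24/23)^k by Bernoulli; 577/1000 * 24/23 ≤ 8701/10000
    have hB : (k : ℝ) ≤ 23 * (24 / 23 : ℝ) ^ k := by
      have := one_add_mul_le_pow (a := (1 / 23 : ℝ)) (by norm_num) k
      have e : (1 + 1 / 23 : ℝ) = 24 / 23 := by norm_num
      rw [e] at this
      linarith
    have h1 : (k : ℝ) ^ 2 * (577 / 1000 : ℝ) ^ (k + 1) / (k + 1) ≤ k * (577 / 1000 : ℝ) ^ k := by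
      rw [div_le_iff₀ (by positivity), pow_succ (577 / 1000 : ℝ)]
      have hk0 : (0 : ℝ) ≤ k := Nat.cast_nonneg _
      have hp : (0 : ℝ) ≤ (577 / 1000 : ℝ) ^ k := by positivity
      nlinarith [mul_nonneg hk0 hp, mul_nonneg (mul_nonneg hk0 hp) hk0]
    refine h1.trans ?_
    calc (k : ℝ) * (577 / 1000 : ℝ) ^ k ≤ (23 * (24 / 23 : ℝ) ^ k) * (577 / 1000 : ℝ) ^ k :=
          mul_le_mul_of_nonneg_right hB (by positivity)
      _ = 23 * (24 / 23 * (577 / 1000) : ℝ) ^ k := by rw [mul_pow]; ring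
      _ = (23 * (24 / 23 * (577 / 1000) : ℝ) ^ 73) * (24 / 23 * (577 / 1000) : ℝ) ^ j := by
          rw [hk, pow_add]; ring
      _ ≤ (1 / 10 ^ 12) * (8701 / 10000) ^ j := by
          apply mul_le_mul _ _ (by positivity) (by positivity)
          · norm_num
          · exact pow_le_pow_left₀ (by norm_num) (by norm_num) _
  have key := cert_main hg hden hchk hδ hsum'
  have h0 : (nmS 0 : ℝ) / dnS 0 = 0 := by
    rw [hnum]
    norm_num
  rw [h0, zero_add] at key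
  exact key

end Pool.Agent.Helper92.Bloch
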