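import Mathlib
import Pool.Agent.Helper92.Bloch.Basic
import Pool.Agent.Helper92.Bloch.Bonk
import Pool.Agent.Helper92.Bloch.Func

set_option autoImplicit false

namespace Pool.Agent.Helper92.Bloch

open Metric Complex

/-- rotation of the primitive -/
noncomputable def rotf (m : ℂ) (f : ℂ → ℂ) : ℂ → ℂ := fun z => (starRingEnd ℂ) m * f (m * z)

/-- support-type function of the image of the circle of radius 577/1000 -/
noncomputable def psi (f : ℂ → ℂ) (u : ℂ) : ℝ :=
  ((starRingEnd ℂ) u * f (((577 / 1000 : ℝ) : ℂ) * u)).re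

theorem psi_rot (m : ℂ) (f : ℂ → ℂ) (u : ℂ) : psi (rotf m f) u = psi f (m * u) := by
  unfold psi rotf
  rw [map_mul]
  congr 1
  have : m * (((577 / 1000 : ℝ) : ℂ) * u) = ((577 / 1000 : ℝ) : ℂ) * (m * u) := by ring
  rw [this]
  ring

theorem conj_mul_self {u : ℂ} (hu : ‖u‖ = 1) : (starRingEnd ℂ) u * u = 1 := by
  rw [mul_comm, Complex.mul_conj, Complex.normSq_eq_norm_sq, hu]
  norm_num

/-- the pair inequality for an arbitrary starting direction -/
theorem psi_pair {f g : ℂ → ℂ} (hg : NB g) (hf : Prim f g) {a b c : ℤ} (hc : 0 < c)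
    (habc : a ^ 2 + b ^ 2 = c ^ 2) {L : List CPt} {sv st : ℤ}
    (hchk : fullCheck (nmP a b) (dnP c) L sv st = true) {V : ℝ}
    (hV : V ≤ 1154 / 1000 + (sv : ℝ) / 10 ^ 7
        - (1 / 10 ^ 8 + 869 * (1 / 10 ^ 12 + (8701 / 10000) * (st / 10 ^ 12))))
    {C S : ℝ} (hC : C * c ^ 2 = a ^ 2 - b ^ 2) (hS : S * c ^ 2 = 2 * a * b)
    {p : ℂ} (hp : ‖p‖ = 1) : V ≤ psi f p + psi f (p * ⟨C, S⟩) := by
  have hcr : (0 : ℝ) < c := by exact_mod_cast hc
  have hcc : (c : ℂ) ≠ 0 := by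
    have : ((c : ℝ) : ℂ) ≠ 0 := by
      exact_mod_cast hcr.ne'
    exact_mod_cast this
  set u : ℂ := ((a : ℂ) + (b : ℂ) * I) / (c : ℂ) with hu
  have hun : ‖u‖ = 1 := by
    have h1 : ‖u‖ ^ 2 = 1 := by
      have e : u = ((a : ℝ) + (b : ℝ) * I) / ((c : ℝ) : ℂ) := by rw [hu]; push_cast; rfl
      rw [e, norm_div, div_pow, norm_mk, Complex.norm_real, Real.norm_eq_abs, sq_abs]
      have : (a : ℝ) ^ 2 + (b : ℝ) ^ 2 = (c : ℝ) ^ 2 := by exact_mod_cast habc
      rw [this]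
      field_simp
    nlinarith [norm_nonneg u]
  have huu : (⟨C, S⟩ : ℂ) = u * u := by
    have h2 : (⟨C, S⟩ : ℂ) = (C : ℂ) + (S : ℂ) * I := by
      apply Complex.ext <;> simp
    have h3 : (C : ℂ) * (c : ℂ) ^ 2 = (a : ℂ) ^ 2 - (b : ℂ) ^ 2 := by exact_mod_cast hC
    have h4 : (S : ℂ) * (c : ℂ) ^ 2 = 2 * (a : ℂ) * (b : ℂ) := by exact_mod_cast hS
    rw [h2, hu]
    field_simp
    have h5 : ((C : ℂ) + (S : ℂ) * I) * (c : ℂ) ^ 2 = (a : ℂ) ^ 2 - (b : ℂ) ^ 2
        + 2 * (a : ℂ) * (b : ℂ) * I := by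
      rw [add_mul, h3, mul_right_comm, h4]
    have h6 : ((a : ℂ) + (b : ℂ) * I) ^ 2 = (a : ℂ) ^ 2 - (b : ℂ) ^ 2
        + 2 * (a : ℂ) * (b : ℂ) * I := by
      ring_nf
      rw [Complex.I_sq]
      ring
    have h7 := h5.trans h6.symm
    linear_combination h7
  set m : ℂ := p * u with hm
  have hmn : ‖m‖ = 1 := by rw [hm, norm_mul, hp, hun, one_mul]
  have h := pair_cert (hg.rot hmn) (hf.rot hmn) hc habc hchk hu
  have e1 : ((starRingEnd ℂ) u * ((starRingEnd ℂ) m * f (m * (((577 / 1000 : ℝ) : ℂ) * u)))).re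
      = psi f (p * ⟨C, S⟩) := by
    have h10 : p * (⟨C, S⟩ : ℂ) = m * u := by rw [huu, hm]; ring
    rw [h10, ← psi_rot m f u]
    rfl
  have e2 : (u * ((starRingEnd ℂ) m * f (m * (((577 / 1000 : ℝ) : ℂ) * (starRingEnd ℂ) u)))).re
      = psi f p := by
    have h8 := psi_rot m f ((starRingEnd ℂ) u)
    have h9 : m * (starRingEnd ℂ) u = p := by
      rw [hm, mul_assoc, mul_comm u, conj_mul_self hun, mul_one]
    rw [h9] at h8
    rw [← h8]
    unfold psi rotf
    rw [Complex.conj_conj]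
  rw [e1, e2] at h
  linarith

theorem bonk {g : ℂ → ℂ} (hg : NB g) {z : ℂ} (hz : ‖z‖ < Real.sqrt 3 / 2) :
    (1 - Real.sqrt 3 * ‖z‖) / (1 - ‖z‖ / Real.sqrt 3) ^ 3 ≤ (g z).re := by
  by_cases h0 : z = 0
  · subst h0
    simp [hg.zero]
  · set m : ℂ := z / ‖z‖ with hm
    have hzn : (‖z‖ : ℂ) ≠ 0 := by
      simpa using h0
    have hmn : ‖m‖ = 1 := by
      rw [hm, norm_div, Complex.norm_real, norm_norm, div_self (norm_ne_zero_iff.2 h0)]
    have h := bonk_real (hg.rot hmn) (norm_nonneg z) hz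
    have e : m * (‖z‖ : ℂ) = z := by rw [hm]; field_simp
    simpa only [e] using h

theorem re_pos {g : ℂ → ℂ} (hg : NB g) {z : ℂ} (hz : ‖z‖ < 577 / 1000) : 0 < (g z).re := by
  have h3 : Real.sqrt 3 < 1.7329 := by
    rw [Real.sqrt_lt' (by norm_num)]
    norm_num
  have h3' : (1.7 : ℝ) < Real.sqrt 3 := by
    rw [Real.lt_sqrt (by norm_num)]
    norm_num
  have h := bonk hg (z := z) (by linarith)
  refine lt_of_lt_of_le ?_ h
  have hz0 := norm_nonneg z
  apply div_pos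
  · nlinarith
  · apply pow_pos
    have : ‖z‖ / Real.sqrt 3 < 1 := by
      rw [div_lt_one (by linarith)]
      linarith
    linarith

theorem psi_low {f g : ℂ → ℂ} (hg : NB g) (hf : Prim f g) {u : ℂ} (hu : ‖u‖ = 1) :
    43301 / 100000 ≤ psi f u := by
  have h3 : Real.sqrt 3 < 1.7321 := by
    rw [Real.sqrt_lt' (by norm_num)]
    norm_num
  have h3' : (1.7320501 : ℝ) < Real.sqrt 3 := by
    rw [Real.lt_sqrt (by norm_num)]
    norm_num
  have hs3 : Real.sqrt 3 ^ 2 = 3 := Real.sq_sqrt (by norm_num)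
  obtain ⟨c, hc⟩ : ∃ c : ℝ, c = 1 / Real.sqrt 3 := ⟨_, rfl⟩
  have hsc : Real.sqrt 3 = 3 * c := by
    rw [hc]
    have : Real.sqrt 3 ≠ 0 := by positivity
    field_simp
    linarith
  have hc2 : c ^ 2 = 1 / 3 := by
    rw [hsc] at hs3
    linarith
  have hc0 : 0 < c := by rw [hc]; positivity
  -- the comparison function
  set F : ℝ → ℝ := fun s => (s - 2 * c * s ^ 2) / (1 - c * s) ^ 2 with hF
  set H : ℝ → ℝ := fun s => ((starRingEnd ℂ) u * f ((s : ℂ) * u)).re - F s with hH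
  have hder : ∀ s : ℝ, 0 ≤ s → s ≤ 577 / 1000 →
      HasDerivAt H ((g ((s : ℂ) * u)).re - (1 - 3 * c * s) / (1 - c * s) ^ 3) s := by
    intro s hs0 hs1
    have hsn : (s : ℂ) * u ∈ ball (0 : ℂ) 1 := by
      rw [mem_ball_zero_iff, norm_mul, hu, mul_one, Complex.norm_real, Real.norm_eq_abs,
        abs_of_nonneg hs0]
      linarith
    have hcs : 0 < 1 - c * s := by nlinarith
    have h1 : HasDerivAt (fun t : ℂ => (starRingEnd ℂ) u * f (t * u))
        ((starRingEnd ℂ) u * (g ((s : ℂ) * u) * (1 * u))) (s : ℂ) := by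
      have h2 : HasDerivAt (fun t : ℂ => t * u) (1 * u) (s : ℂ) := (hasDerivAt_id _).mul_const u
      exact (HasDerivAt.comp (s : ℂ) (hf.deriv _ hsn) h2).const_mul _
    have h2 := h1.comp_ofReal
    have h4 : HasDerivAt (fun t : ℝ => ((starRingEnd ℂ) u * f ((t : ℂ) * u)).re)
        (((starRingEnd ℂ) u * (g ((s : ℂ) * u) * (1 * u))).re) s :=
      Complex.reCLM.hasFDerivAt.comp_hasDerivAt _ h2
    have e : (starRingEnd ℂ) u * (g ((s : ℂ) * u) * (1 * u)) = g ((s : ℂ) * u) := by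
      rw [one_mul, mul_comm (g _) u, ← mul_assoc, conj_mul_self hu, one_mul]
    rw [e] at h4
    have h5 : HasDerivAt F ((1 - 3 * c * s) / (1 - c * s) ^ 3) s := by
      have n1 : HasDerivAt (fun s : ℝ => s - 2 * c * s ^ 2) (1 - 2 * c * (2 * s)) s := by
        have := (hasDerivAt_id' s).fun_sub (((hasDerivAt_id' s).fun_pow 2).const_mul (2 * c))
        simpa using this
      have n2 : HasDerivAt (fun s : ℝ => (1 - c * s) ^ 2) (2 * (1 - c * s) * (-c)) s := by
        have := (((hasDerivAt_id' s).const_mul c).const_sub 1).fun_pow 2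
        simpa using this
      have n3 := n1.div n2 (by positivity)
      have e2 : ((1 - 2 * c * (2 * s)) * (1 - c * s) ^ 2
          - (s - 2 * c * s ^ 2) * (2 * (1 - c * s) * (-c))) / ((1 - c * s) ^ 2) ^ 2
          = (1 - 3 * c * s) / (1 - c * s) ^ 3 := by
        have := hcs.ne'
        field_simp
        ring
      rw [e2] at n3
      exact n3
    exact h4.sub h5
  have hmono : MonotoneOn H (Set.Icc 0 (577 / 1000)) := by
    apply monotoneOn_of_deriv_nonneg (convex_Icc _ _)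
    · intro s hs
      exact (hder s hs.1 hs.2).continuousAt.continuousWithinAt
    · intro s hs
      rw [interior_Icc] at hs
      exact (hder s hs.1.le hs.2.le).differentiableAt.differentiableWithinAt
    · intro s hs
      rw [interior_Icc] at hs
      rw [(hder s hs.1.le hs.2.le).deriv]
      have hn : ‖(s : ℂ) * u‖ = s := by
        rw [norm_mul, hu, mul_one, Complex.norm_real, Real.norm_eq_abs, abs_of_nonneg hs.1.le]
      have h := bonk hg (z := (s : ℂ) * u) (by rw [hn]; linarith [hs.2])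
      rw [hn] at h
      have e3 : s / Real.sqrt 3 = c * s := by rw [hc]; ring
      rw [e3, hsc] at h
      linarith
  have h6 := hmono (Set.left_mem_Icc.2 (by norm_num)) (Set.right_mem_Icc.2 (by norm_num))
    (by norm_num : (0 : ℝ) ≤ 577 / 1000)
  have h7 : H 0 = 0 := by
    simp [hH, hF, hf.zero]
  have h8 : H (577 / 1000) = psi f u - F (577 / 1000) := rfl
  rw [h7, h8] at h6
  have h9 : 43301 / 100000 ≤ F (577 / 1000) := by
    rw [hF]
    have hpos : 0 < 1 - c * (577 / 1000) := by nlinarith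
    simp only
    rw [le_div_iff₀ (by positivity)]
    have hcb : c ≤ 0.57735035 := by
      rw [hsc] at h3'
      nlinarith
    nlinarith
  linarith

end Pool.Agent.Helper92.Bloch
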