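import Mathlib
import Pool.Agent.Helper92.Bloch.Psi

set_option autoImplicit false

namespace Pool.Agent.Helper92.Bloch

open Metric Complex

theorem cos_aux {h k1 : ℝ} (h1 : h ^ 2 ≤ k1) (hk1 : k1 ≤ 1) {d K : ℝ} (hd : 1 - d ≤ Real.cos h)
    (hK : 1 ≤ K * (1 - 5 / 48 * k1)) (hK0 : 0 ≤ K) :
    h ^ 2 / 2 ≤ K * (1 - Real.cos h) ∧ h ^ 2 ≤ 2 * K * d := by
  have hh : |h| ≤ 1 := abs_le_of_sq_le_sq (by nlinarith) zero_le_one
  have hb := (abs_le.1 (Real.cos_bound hh)).2
  have e4 : |h| ^ 4 = h ^ 2 * h ^ 2 := by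
    have : |h| ^ 4 = (|h| ^ 2) ^ 2 := by ring
    rw [this, sq_abs]
    ring
  rw [e4] at hb
  have h2 : h ^ 2 / 2 * (1 - 5 / 48 * k1) ≤ 1 - Real.cos h := by
    nlinarith [mul_nonneg (sq_nonneg h) (sub_nonneg.2 h1)]
  have h3 : h ^ 2 / 2 ≤ K * (1 - Real.cos h) := by
    calc h ^ 2 / 2 = h ^ 2 / 2 * 1 := by ring
      _ ≤ h ^ 2 / 2 * (K * (1 - 5 / 48 * k1)) := by
          apply mul_le_mul_of_nonneg_left hK (by positivity)
      _ = K * (h ^ 2 / 2 * (1 - 5 / 48 * k1)) := by ring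
      _ ≤ K * (1 - Real.cos h) := mul_le_mul_of_nonneg_left h2 hK0
  refine ⟨h3, ?_⟩
  nlinarith

theorem cos_K2 {h : ℝ} (hpi : |h| ≤ Real.pi) (hc : 91 / 100 ≤ Real.cos h) :
    h ^ 2 / 2 ≤ 5117 / 5000 * (1 - Real.cos h) := by
  have h1 := Real.cos_le_one_sub_mul_cos_sq hpi
  have hp : Real.pi ^ 2 < 9.88 := by
    have := Real.pi_lt_d4
    have h0 := Real.pi_pos
    nlinarith
  have hp0 : 0 < Real.pi ^ 2 := by positivity
  have h2 : h ^ 2 ≤ 0.4446 := by
    have e : 2 / Real.pi ^ 2 * h ^ 2 ≤ 0.09 := by linarith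
    rw [div_mul_eq_mul_div, div_le_iff₀ hp0] at e
    nlinarith
  have h3 := cos_aux h2 (by norm_num) (d := 0.09) (K := 1.0486) (by linarith) (by norm_num)
    (by norm_num)
  have h4 : h ^ 2 ≤ 0.1888 := by
    have := h3.2
    norm_num at this ⊢
    linarith
  exact (cos_aux h4 (by norm_num) (d := 0.09) (K := 5117 / 5000) (by linarith) (by norm_num)
    (by norm_num)).1

theorem cos_K1 {h : ℝ} (hpi : |h| ≤ Real.pi) (hc : 99 / 100 ≤ Real.cos h) :
    h ^ 2 / 2 ≤ 5013 / 5000 * (1 - Real.cos h) := by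
  have h1 := Real.cos_le_one_sub_mul_cos_sq hpi
  have hp : Real.pi ^ 2 < 9.88 := by
    have := Real.pi_lt_d4
    have h0 := Real.pi_pos
    nlinarith
  have hp0 : 0 < Real.pi ^ 2 := by positivity
  have h2 : h ^ 2 ≤ 0.0494 := by
    have e : 2 / Real.pi ^ 2 * h ^ 2 ≤ 0.01 := by linarith
    rw [div_mul_eq_mul_div, div_le_iff₀ hp0] at e
    nlinarith
  have h3 := cos_aux h2 (by norm_num) (d := 0.01) (K := 1.0052) (by linarith) (by norm_num)
    (by norm_num)
  have h4 : h ^ 2 ≤ 0.020104 := by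
    have := h3.2
    norm_num at this ⊢
    linarith
  exact (cos_aux h4 (by norm_num) (d := 0.01) (K := 5013 / 5000) (by linarith) (by norm_num)
    (by norm_num)).1

/-- second order comparison for a real function with a minimum at `0` -/
theorem taylor2 {P P1 P2 : ℝ → ℝ} {C : ℝ} (h1 : ∀ x, HasDerivAt P (P1 x) x)
    (h2 : ∀ x, HasDerivAt P1 (P2 x) x) (hC : ∀ x, P2 x ≤ C) (hmin : ∀ x, P 0 ≤ P x) (x : ℝ) :
    P x ≤ P 0 + C * (x ^ 2 / 2) := by
  have h0 : P1 0 = 0 := by
    have : IsLocalMin P 0 := Filter.Eventually.of_forall hmin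
    exact this.hasDerivAt_eq_zero (h1 0)
  set Q : ℝ → ℝ := fun x => P 0 + C * (x ^ 2 / 2) - P x with hQ
  set Q1 : ℝ → ℝ := fun x => C * x - P1 x with hQ1
  have hq1 : ∀ x, HasDerivAt Q (Q1 x) x := by
    intro x
    have e1 : HasDerivAt (fun x : ℝ => P 0 + C * (x ^ 2 / 2)) (C * x) x := by
      have := ((((hasDerivAt_id' x).fun_pow 2).div_const 2).const_mul C).const_add (P 0)
      simpa using this
    exact e1.sub (h1 x)
  have hq2 : ∀ x, HasDerivAt Q1 (C - P2 x) x := by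
    intro x
    have e1 : HasDerivAt (fun x : ℝ => C * x) C x := by
      simpa using (hasDerivAt_id' x).const_mul C
    exact e1.sub (h2 x)
  have hmono : Monotone Q1 := by
    apply monotone_of_deriv_nonneg
    · intro x
      exact (hq2 x).differentiableAt
    · intro x
      rw [(hq2 x).deriv]
      linarith [hC x]
  have hQ10 : Q1 0 = 0 := by simp [hQ1, h0]
  have hQ0 : Q 0 = 0 := by simp [hQ]
  have hfin : 0 ≤ Q x := by
    rcases lt_trichotomy x 0 with hx | hx | hx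
    · obtain ⟨c, hc, hce⟩ := exists_hasDerivAt_eq_slope Q Q1 hx
        (fun y _ => (hq1 y).continuousAt.continuousWithinAt) (fun y _ => hq1 y)
      have h3 : Q1 c ≤ 0 := by
        rw [← hQ10]
        exact hmono hc.2.le
      rw [hQ0, eq_div_iff (by linarith)] at hce
      nlinarith
    · rw [hx, hQ0]
    · obtain ⟨c, hc, hce⟩ := exists_hasDerivAt_eq_slope Q Q1 hx
        (fun y _ => (hq1 y).continuousAt.continuousWithinAt) (fun y _ => hq1 y)
      have h3 : 0 ≤ Q1 c := by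
        rw [← hQ10]
        exact hmono hc.1.le
      rw [hQ0, eq_div_iff (by linarith)] at hce
      nlinarith
  simp only [hQ] at hfin
  linarith

theorem conj_exp_I (x : ℝ) : (starRingEnd ℂ) (cexp (x * I)) = cexp (-(x * I)) := by
  rw [← Complex.exp_conj, map_mul, Complex.conj_ofReal, Complex.conj_I, mul_neg]

theorem exp_hasDerivAt (x : ℝ) : HasDerivAt (fun t : ℝ => cexp (t * I)) (I * cexp (x * I)) x := by
  have h1 : HasDerivAt (fun t : ℂ => t * I) (1 * I) (x : ℂ) := (hasDerivAt_id' _).mul_const I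
  have h2 := (h1.cexp).comp_ofReal
  convert h2 using 1
  ring

theorem exp_neg_hasDerivAt (x : ℝ) :
    HasDerivAt (fun t : ℝ => cexp (-(t * I))) (-(I * cexp (-(x * I)))) x := by
  have h1 : HasDerivAt (fun t : ℂ => -(t * I)) (-(1 * I)) (x : ℂ) :=
    ((hasDerivAt_id' _).mul_const I).fun_neg
  have h2 := (h1.cexp).comp_ofReal
  convert h2 using 1
  ring

theorem psi_taylor {f g g' : ℂ → ℂ} (hg : NB g) (hf : Prim f g)
    (hg' : ∀ z ∈ ball (0 : ℂ) 1, HasDerivAt g (g' z) z) {L : List CPt} {sv st : ℤ}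
    (hchk : fullCheck nmS dnS L sv st = true) {C : ℝ}
    (hC : -C ≤ (sv : ℝ) / 10 ^ 7
        - (1 / 10 ^ 8 + 869 * (1 / 10 ^ 12 + (8701 / 10000) * (st / 10 ^ 12))))
    (hmin : ∀ u : ℂ, ‖u‖ = 1 → psi f 1 ≤ psi f u) (x : ℝ) :
    psi f (cexp (x * I)) ≤ psi f 1 + C * (x ^ 2 / 2) := by
  set r : ℂ := ((577 / 1000 : ℝ) : ℂ) with hr
  have hrn : ‖r‖ = 577 / 1000 := by
    rw [hr, Complex.norm_real, Real.norm_eq_abs, abs_of_nonneg (by norm_num)]
  have hE : ∀ x : ℝ, ‖cexp (x * I)‖ = 1 := fun x => Complex.norm_exp_ofReal_mul_I x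
  have hmem : ∀ x : ℝ, r * cexp (x * I) ∈ ball (0 : ℂ) 1 := by
    intro x
    rw [mem_ball_zero_iff, norm_mul, hE, hrn]
    norm_num
  have hee : ∀ x : ℝ, cexp (-(x * I)) * cexp (x * I) = 1 := by
    intro x
    rw [← Complex.exp_add, neg_add_cancel, Complex.exp_zero]
  -- derivative of x ↦ f (r e^{ix})
  have hF : ∀ x : ℝ, HasDerivAt (fun t : ℝ => f (r * cexp (t * I)))
      (g (r * cexp (x * I)) * (r * (I * cexp (x * I)))) x := by
    intro x
    exact HasDerivAt.comp (h₂ := f) x (hf.deriv _ (hmem x)) ((exp_hasDerivAt x).const_mul r)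
  have hG : ∀ x : ℝ, HasDerivAt (fun t : ℝ => g (r * cexp (t * I)))
      (g' (r * cexp (x * I)) * (r * (I * cexp (x * I)))) x := by
    intro x
    exact HasDerivAt.comp (h₂ := g) x (hg' _ (hmem x)) ((exp_hasDerivAt x).const_mul r)
  set G1 : ℝ → ℂ := fun x => -(I * cexp (-(x * I))) * f (r * cexp (x * I))
    + I * r * g (r * cexp (x * I)) with hG1
  set G2 : ℝ → ℂ := fun x => -(cexp (-(x * I)) * f (r * cexp (x * I)))
    + r * g (r * cexp (x * I)) - r ^ 2 * (cexp (x * I) * g' (r * cexp (x * I))) with hG2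
  have h1 : ∀ x : ℝ, HasDerivAt (fun t : ℝ => cexp (-(t * I)) * f (r * cexp (t * I))) (G1 x) x := by
    intro x
    have e0 := (exp_neg_hasDerivAt x).fun_mul (hF x)
    refine e0.congr_deriv ?_
    change _ = -(I * cexp (-(x * I))) * f (r * cexp (x * I)) + I * r * g (r * cexp (x * I))
    have := hee x
    linear_combination (I * r * g (r * cexp (x * I))) * this
  have h2 : ∀ x : ℝ, HasDerivAt G1 (G2 x) x := by
    intro x
    have a1 := (((exp_neg_hasDerivAt x).const_mul I).fun_neg).fun_mul (hF x)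
    have a2 := (hG x).const_mul (I * r)
    refine (a1.fun_add a2).congr_deriv ?_
    change _ = -(cexp (-(x * I)) * f (r * cexp (x * I)))
      + r * g (r * cexp (x * I)) - r ^ 2 * (cexp (x * I) * g' (r * cexp (x * I)))
    have := hee x
    have hI : I * I = -1 := Complex.I_mul_I
    linear_combination (r * g (r * cexp (x * I))) * this
      + (cexp (-(x * I)) * f (r * cexp (x * I))
        - cexp (-(x * I)) * cexp (x * I) * r * g (r * cexp (x * I))
        + r ^ 2 * cexp (x * I) * g' (r * cexp (x * I))) * hI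
  have hconj : ∀ x : ℝ, psi f (cexp (x * I)) = (cexp (-(x * I)) * f (r * cexp (x * I))).re := by
    intro x
    unfold psi
    rw [conj_exp_I]
  have p1 : ∀ x : ℝ, HasDerivAt (fun t : ℝ => psi f (cexp (t * I))) ((G1 x).re) x := by
    intro x
    have := Complex.reCLM.hasFDerivAt.comp_hasDerivAt x (h1 x)
    refine HasDerivAt.congr_of_eventuallyEq this (Filter.Eventually.of_forall fun t => ?_)
    exact hconj t
  have p2 : ∀ x : ℝ, HasDerivAt (fun t : ℝ => (G1 t).re) ((G2 x).re) x := by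
    intro x
    exact Complex.reCLM.hasFDerivAt.comp_hasDerivAt x (h2 x)
  have hC2 : ∀ x : ℝ, (G2 x).re ≤ C := by
    intro x
    set m : ℂ := cexp (x * I) with hm
    have hmn : ‖m‖ = 1 := hE x
    have hg'm : ∀ z ∈ ball (0 : ℂ) 1, HasDerivAt (fun z => g (m * z)) (m * g' (m * z)) z := by
      intro z hz
      have hmz : m * z ∈ ball (0 : ℂ) 1 := by simpa [hmn] using hz
      have b1 : HasDerivAt (fun z : ℂ => m * z) (m * 1) z := (hasDerivAt_id' z).const_mul m
      have b2 := HasDerivAt.comp (h₂ := g) z (hg' _ hmz) b1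
      refine b2.congr_deriv ?_
      ring
    have key := sec_cert (hg.rot hmn) (hf.rot hmn) hg'm hchk
    rw [← hr] at key
    have e : (G2 x) = -((starRingEnd ℂ) m * f (m * r) - r * g (m * r) + r ^ 2 * (m * g' (m * r))) := by
      simp only [hG2]
      rw [← conj_exp_I, ← hm, mul_comm r m]
      ring
    rw [e, Complex.neg_re]
    linarith
  have key := taylor2 p1 p2 hC2 (by
    intro y
    have e0 : cexp (((0 : ℝ) : ℂ) * I) = 1 := by simp
    rw [e0]
    exact hmin _ (hE y)) x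
  simpa using key

theorem psi_near {f g g' : ℂ → ℂ} (hg : NB g) (hf : Prim f g)
    (hg' : ∀ z ∈ ball (0 : ℂ) 1, HasDerivAt g (g' z) z) {L : List CPt} {sv st : ℤ}
    (hchk : fullCheck nmS dnS L sv st = true) {C : ℝ} (hC0 : 0 ≤ C)
    (hC : -C ≤ (sv : ℝ) / 10 ^ 7
        - (1 / 10 ^ 8 + 869 * (1 / 10 ^ 12 + (8701 / 10000) * (st / 10 ^ 12))))
    (hmin : ∀ u : ℂ, ‖u‖ = 1 → psi f 1 ≤ psi f u) {p : ℂ} (hp : ‖p‖ = 1) :
    (99 / 100 ≤ p.re → psi f p ≤ psi f 1 + (C * (5013 / 5000)) * (1 - p.re)) ∧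
    (91 / 100 ≤ p.re → psi f p ≤ psi f 1 + (C * (5117 / 5000)) * (1 - p.re)) := by
  have he : cexp ((Complex.arg p : ℝ) * I) = p := by
    have := Complex.norm_mul_exp_arg_mul_I p
    rw [hp] at this
    simpa using this
  have hre : Real.cos (Complex.arg p) = p.re := by
    rw [Complex.cos_arg (by
      intro h0
      rw [h0] at hp
      simp at hp), hp, div_one]
  have hpi : |Complex.arg p| ≤ Real.pi := Complex.abs_arg_le_pi p
  have key := psi_taylor hg hf hg' hchk hC hmin (Complex.arg p)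
  rw [he] at key
  constructor
  · intro h
    have := cos_K1 hpi (by rw [hre]; exact h)
    rw [hre] at this
    nlinarith [mul_le_mul_of_nonneg_left this hC0]
  · intro h
    have := cos_K2 hpi (by rw [hre]; exact h)
    rw [hre] at this
    nlinarith [mul_le_mul_of_nonneg_left this hC0]

end Pool.Agent.Helper92.Bloch
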