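import Mathlib
import Pool.Agent.Helper92.Bloch.Cover
import Pool.Agent.Helper92.Bloch.Taylor
import Pool.Agent.Helper92.Bloch.DataP0
import Pool.Agent.Helper92.Bloch.DataP1
import Pool.Agent.Helper92.Bloch.DataP2
import Pool.Agent.Helper92.Bloch.DataP3
import Pool.Agent.Helper92.Bloch.DataP4
import Pool.Agent.Helper92.Bloch.DataP5
import Pool.Agent.Helper92.Bloch.DataP6
import Pool.Agent.Helper92.Bloch.DataP7
import Pool.Agent.Helper92.Bloch.DataP8
import Pool.Agent.Helper92.Bloch.DataP9
import Pool.Agent.Helper92.Bloch.DataS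

set_option autoImplicit false

namespace Pool.Agent.Helper92.Bloch

open Metric Complex

theorem ball_subset_image {f : ℂ → ℂ} {r R : ℝ} {c : ℂ}
    (hcont : ContinuousOn f (closedBall 0 r)) (hopen : IsOpen (f '' ball 0 r))
    (hbd : ∀ z : ℂ, ‖z‖ = r → R ≤ ‖f z - c‖) (hr : 0 < r) (h0 : f 0 ∈ ball c R) :
    ball c R ⊆ f '' ball 0 r := by
  apply IsPreconnected.subset_of_closure_inter_subset (convex_ball c R).isPreconnected hopen
  · exact ⟨f 0, h0, 0, by simpa using hr, rfl⟩
  · rintro w ⟨hw1, hw2⟩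
    have hcl : IsClosed (f '' closedBall 0 r) :=
      ((isCompact_closedBall (0 : ℂ) r).image_of_continuousOn hcont).isClosed
    have h1 : w ∈ f '' closedBall 0 r :=
      closure_minimal (Set.image_mono ball_subset_closedBall) hcl hw1
    obtain ⟨z, hz, rfl⟩ := h1
    rcases lt_or_eq_of_le (mem_closedBall_zero_iff.1 hz) with h | h
    · exact ⟨z, by simpa using h, rfl⟩
    · exfalso
      have := hbd z h
      rw [mem_ball, dist_eq_norm] at hw2
      linarith

theorem injOn_of_re_pos {f g : ℂ → ℂ} {r : ℝ} (hr1 : r ≤ 1) (hf : Prim f g)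
    (hpos : ∀ z : ℂ, ‖z‖ < r → 0 < (g z).re) : Set.InjOn f (ball 0 r) := by
  intro z hz w hw hzw
  by_contra hne
  have hd : w - z ≠ 0 := sub_ne_zero.2 (Ne.symm hne)
  set d : ℂ := w - z with hdd
  have hseg : ∀ t : ℝ, 0 ≤ t → t ≤ 1 → z + (t : ℂ) * d ∈ ball (0 : ℂ) r := by
    intro t ht0 ht1
    have h1 := (convex_ball (0 : ℂ) r) hz hw (by linarith : 0 ≤ 1 - t) ht0 (by ring)
    have e : (1 - t) • z + t • w = z + (t : ℂ) * d := by
      rw [hdd, Complex.real_smul, Complex.real_smul]
      push_cast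
      ring
    rwa [e] at h1
  have hder : ∀ t : ℝ, 0 ≤ t → t ≤ 1 →
      HasDerivAt (fun s : ℝ => ((starRingEnd ℂ) d * f (z + (s : ℂ) * d)).re)
        (((starRingEnd ℂ) d * (g (z + (t : ℂ) * d) * (1 * d))).re) t := by
    intro t ht0 ht1
    have h0 : z + (t : ℂ) * d ∈ ball (0 : ℂ) 1 := ball_subset_ball hr1 (hseg t ht0 ht1)
    have h2 : HasDerivAt (fun s : ℂ => z + s * d) (1 * d) (t : ℂ) :=
      ((hasDerivAt_id' _).mul_const d).const_add z
    have h3 := (HasDerivAt.comp (h₂ := f) (t : ℂ) (hf.deriv _ h0) h2).const_mul ((starRingEnd ℂ) d)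
    exact Complex.reCLM.hasFDerivAt.comp_hasDerivAt _ h3.comp_ofReal
  obtain ⟨t, ht, hte⟩ := exists_hasDerivAt_eq_slope
    (fun s : ℝ => ((starRingEnd ℂ) d * f (z + (s : ℂ) * d)).re)
    (fun t : ℝ => ((starRingEnd ℂ) d * (g (z + (t : ℂ) * d) * (1 * d))).re) zero_lt_one
    (fun t ht => (hder t ht.1 ht.2).continuousAt.continuousWithinAt)
    (fun t ht => hder t ht.1.le ht.2.le)
  have e1 : (starRingEnd ℂ) d * (g (z + (t : ℂ) * d) * (1 * d))
      = ((Complex.normSq d : ℝ) : ℂ) * g (z + (t : ℂ) * d) := by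
    rw [← Complex.mul_conj]
    ring
  have e2 : z + ((1 : ℝ) : ℂ) * d = w := by rw [hdd]; push_cast; ring
  have e3 : z + ((0 : ℝ) : ℂ) * d = z := by simp
  simp only [e1, e2, e3, Complex.re_ofReal_mul, hzw, sub_self, zero_div] at hte
  have h4 : 0 < Complex.normSq d := Complex.normSq_pos.2 hd
  have h5 := hpos _ (mem_ball_zero_iff.1 (hseg t ht.1.le ht.2.le))
  have h6 := mul_pos h4 h5
  linarith

theorem normal_disc {f g : ℂ → ℂ} (hg : NB g) (hf : Prim f g) :
    Set.InjOn f (ball 0 (577 / 1000)) ∧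
      ∃ c : ℂ, ball c (44705 / 100000) ⊆ f '' ball 0 (577 / 1000) := by
  have hinj : Set.InjOn f (ball 0 (577 / 1000)) :=
    injOn_of_re_pos (by norm_num) hf (fun z hz => re_pos hg hz)
  refine ⟨hinj, ?_⟩
  have hsub : closedBall (0 : ℂ) (577 / 1000) ⊆ ball 0 1 := closedBall_subset_ball (by norm_num)
  have hcontf : ContinuousOn f (closedBall 0 (577 / 1000)) :=
    (hf.differentiableOn.continuousOn).mono hsub
  -- the minimizing direction
  have hcs : ContinuousOn (psi f) (sphere (0 : ℂ) 1) := by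
    unfold psi
    apply Complex.continuous_re.comp_continuousOn
    apply ContinuousOn.mul (Complex.continuous_conj.continuousOn)
    apply hcontf.comp (by fun_prop)
    intro u hu
    have hu' : ‖u‖ = 1 := by simpa using hu
    rw [mem_closedBall_zero_iff, norm_mul, hu', mul_one, Complex.norm_real, Real.norm_eq_abs,
      abs_of_nonneg (by norm_num)]
  obtain ⟨m, hm, hmin⟩ := (isCompact_sphere (0 : ℂ) 1).exists_isMinOn
    ⟨1, by simp⟩ hcs
  have hmn : ‖m‖ = 1 := by simpa using hm
  have hG := hg.rot hmn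
  have hF : Prim (rotf m f) (fun z => g (m * z)) := hf.rot hmn
  have hmin' : ∀ u : ℂ, ‖u‖ = 1 → psi (rotf m f) 1 ≤ psi (rotf m f) u := by
    intro u hu
    rw [psi_rot, psi_rot, mul_one]
    apply hmin
    simp [hmn, hu]
  have hG' : ∀ z ∈ ball (0 : ℂ) 1,
      HasDerivAt (fun z => g (m * z)) (deriv (fun z => g (m * z)) z) z := by
    intro z hz
    exact ((hG.diff z hz).differentiableAt (isOpen_ball.mem_nhds hz)).hasDerivAt
  have hnear : ∀ p : ℂ, ‖p‖ = 1 → _ := fun p hp =>
    psi_near hG hF hG' chkS (C := 151337 / 100000) (by norm_num) (by norm_num) hmin' hp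
  obtain ⟨κ, hκ0, hκ1, hκ⟩ := cover (psi (rotf m f)) hmin' (psi_low hG hF (by simp))
    (fun p hp h => (hnear p hp).1 h) (fun p hp h => (hnear p hp).2 h)
    (fun p hp => psi_pair hG hF (a := 0) (b := 1) (c := 1) (by norm_num) (by norm_num) chkP0
      (by norm_num) (by norm_num) (by norm_num) hp)
    (fun p hp => psi_pair hG hF (a := 49) (b := 1200) (c := 1201) (by norm_num) (by norm_num) chkP1
      (by norm_num) (by norm_num) (by norm_num) hp)
    (fun p hp => psi_pair hG hF (a := 23) (b := 264) (c := 265) (by norm_num) (by norm_num) chkP2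
      (by norm_num) (by norm_num) (by norm_num) hp)
    (fun p hp => psi_pair hG hF (a := 13) (b := 84) (c := 85) (by norm_num) (by norm_num) chkP3
      (by norm_num) (by norm_num) (by norm_num) hp)
    (fun p hp => psi_pair hG hF (a := 16) (b := 63) (c := 65) (by norm_num) (by norm_num) chkP4
      (by norm_num) (by norm_num) (by norm_num) hp)
    (fun p hp => psi_pair hG hF (a := 5) (b := 12) (c := 13) (by norm_num) (by norm_num) chkP5
      (by norm_num) (by norm_num) (by norm_num) hp)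
    (fun p hp => psi_pair hG hF (a := 28) (b := 45) (c := 53) (by norm_num) (by norm_num) chkP6
      (by norm_num) (by norm_num) (by norm_num) hp)
    (fun p hp => psi_pair hG hF (a := 21) (b := 20) (c := 29) (by norm_num) (by norm_num) chkP7
      (by norm_num) (by norm_num) (by norm_num) hp)
    (fun p hp => psi_pair hG hF (a := 77) (b := 36) (c := 85) (by norm_num) (by norm_num) chkP8
      (by norm_num) (by norm_num) (by norm_num) hp)
    (fun p hp => psi_pair hG hF (a := 99) (b := 20) (c := 101) (by norm_num) (by norm_num) chkP9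
      (by norm_num) (by norm_num) (by norm_num) hp)

  refine ⟨-(κ : ℂ) * m, ?_⟩
  apply ball_subset_image hcontf
  · -- openness
    have han : AnalyticOnNhd ℂ f (ball 0 1) := hf.differentiableOn.analyticOnNhd isOpen_ball
    rcases (han.mono (ball_subset_ball (by norm_num : (577 / 1000 : ℝ) ≤ 1))).is_constant_or_isOpen
      (convex_ball (0 : ℂ) (577 / 1000)).isPreconnected with ⟨w, hw⟩ | h
    · exfalso
      have h1 : (0 : ℂ) ∈ ball (0 : ℂ) (577 / 1000) := by simp
      have h2 : (1 / 2 : ℂ) ∈ ball (0 : ℂ) (577 / 1000) := by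
        rw [mem_ball_zero_iff]
        norm_num
      have h3 := hinj h1 h2 (by rw [hw _ h1, hw _ h2])
      norm_num at h3
    · exact h _ le_rfl isOpen_ball
  · intro z hz
    -- z = (577/1000) * (m * u)
    obtain ⟨u, hu, hzu⟩ : ∃ u : ℂ, ‖u‖ = 1 ∧ z = m * (((577 / 1000 : ℝ) : ℂ) * u) := by
      refine ⟨(starRingEnd ℂ) m * z / ((577 / 1000 : ℝ) : ℂ), ?_, ?_⟩
      · rw [norm_div, norm_mul, RCLike.norm_conj, hmn, hz, Complex.norm_real, Real.norm_eq_abs,
          abs_of_nonneg (by norm_num)]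
        norm_num
      · have h1 : m * (starRingEnd ℂ) m = 1 := by rw [mul_comm]; exact conj_mul_self hmn
        have h2 : (((577 / 1000 : ℝ) : ℂ)) ≠ 0 := by norm_num
        field_simp
        linear_combination (-z) * h1
    have h1 := hκ u hu
    have h2 : f z = m * rotf m f (((577 / 1000 : ℝ) : ℂ) * u) := by
      unfold rotf
      rw [← mul_assoc, mul_comm m, conj_mul_self hmn, one_mul, hzu]
    have h3 : f z - -(κ : ℂ) * m = m * (rotf m f (((577 / 1000 : ℝ) : ℂ) * u) + κ) := by
      rw [h2]; ring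
    rw [h3, norm_mul, hmn, one_mul]
    have h4 : ‖rotf m f (((577 / 1000 : ℝ) : ℂ) * u) + κ‖
        = ‖(starRingEnd ℂ) u * (rotf m f (((577 / 1000 : ℝ) : ℂ) * u) + κ)‖ := by
      rw [norm_mul, RCLike.norm_conj, hu, one_mul]
    rw [h4]
    refine le_trans ?_ (Complex.re_le_norm _)
    rw [mul_add, Complex.add_re]
    have h5 : ((starRingEnd ℂ) u * (κ : ℂ)).re = κ * u.re := by
      rw [mul_comm, Complex.re_ofReal_mul, Complex.conj_re]
    rw [h5]
    exact h1
  · norm_num
  · rw [hf.zero, mem_ball, dist_eq_norm, zero_sub, norm_neg, norm_mul, hmn, mul_one, norm_neg,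
      Complex.norm_real, Real.norm_eq_abs, abs_of_nonneg hκ0]
    linarith

end Pool.Agent.Helper92.Bloch
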