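import Mathlib
import Pool.Agent.Helper92.Bloch.Normal
import Pool.Agent.Helper92.Bloch.Julia

set_option autoImplicit false

namespace Pool.Agent.Helper92.Bloch

open Metric Complex

/-- the disc automorphism `z ↦ (z + a)/(1 + conj a z)` -/
noncomputable def mob (a : ℂ) (z : ℂ) : ℂ := (z + a) / (1 + (starRingEnd ℂ) a * z)

theorem mob_den_ne {a z : ℂ} (ha : ‖a‖ < 1) (hz : ‖z‖ ≤ 1) : 1 + (starRingEnd ℂ) a * z ≠ 0 := by
  intro h
  have h1 : ‖(starRingEnd ℂ) a * z‖ = 1 := by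
    have : (starRingEnd ℂ) a * z = -1 := by linear_combination h
    rw [this, norm_neg, norm_one]
  rw [norm_mul, RCLike.norm_conj] at h1
  have h0 := norm_nonneg a
  have h0' := norm_nonneg z
  nlinarith

/-- the Pick identity for `mob` -/
theorem one_sub_mob {a z : ℂ} (ha : ‖a‖ < 1) (hz : ‖z‖ ≤ 1) :
    1 - ‖mob a z‖ ^ 2 = (1 - ‖a‖ ^ 2) * (1 - ‖z‖ ^ 2) / ‖1 + (starRingEnd ℂ) a * z‖ ^ 2 := by
  have hne := mob_den_ne ha hz
  have hpos : 0 < ‖1 + (starRingEnd ℂ) a * z‖ ^ 2 := by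
    have := norm_pos_iff.2 hne
    positivity
  unfold mob
  rw [norm_div, div_pow, eq_div_iff hpos.ne', sub_mul, div_mul_cancel₀ _ hpos.ne', one_mul]
  simp only [← Complex.normSq_eq_norm_sq, Complex.normSq_apply]
  simp
  ring

theorem mob_mem {a z : ℂ} (ha : ‖a‖ < 1) (hz : ‖z‖ < 1) : ‖mob a z‖ < 1 := by
  have h := one_sub_mob ha hz.le
  have hne := mob_den_ne ha hz.le
  have hpos : 0 < ‖1 + (starRingEnd ℂ) a * z‖ ^ 2 := by
    have := norm_pos_iff.2 hne
    positivity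
  have h1 : 0 < (1 - ‖a‖ ^ 2) * (1 - ‖z‖ ^ 2) / ‖1 + (starRingEnd ℂ) a * z‖ ^ 2 := by
    apply div_pos _ hpos
    apply mul_pos <;> nlinarith [norm_nonneg a, norm_nonneg z]
  rw [← h] at h1
  nlinarith [norm_nonneg (mob a z)]

theorem mob_neg_mob {a z : ℂ} (ha : ‖a‖ < 1) (hz : ‖z‖ < 1) : mob (-a) (mob a z) = z := by
  have hne := mob_den_ne ha hz.le
  have hne2 : 1 + (starRingEnd ℂ) (-a) * mob a z ≠ 0 :=
    mob_den_ne (by rwa [norm_neg]) (mob_mem ha hz).le
  rw [mob, div_eq_iff hne2, map_neg]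
  have hq : mob a z * (1 + (starRingEnd ℂ) a * z) = z + a := by
    unfold mob
    rw [div_mul_cancel₀ _ hne]
  linear_combination hq

theorem mob_mob_neg {a z : ℂ} (ha : ‖a‖ < 1) (hz : ‖z‖ < 1) : mob a (mob (-a) z) = z := by
  have := mob_neg_mob (a := -a) (z := z) (by rwa [norm_neg]) hz
  rwa [neg_neg] at this

theorem mob_hasDerivAt {a z : ℂ} (ha : ‖a‖ < 1) (hz : ‖z‖ < 1) :
    HasDerivAt (mob a) ((1 - (starRingEnd ℂ) a * a) / (1 + (starRingEnd ℂ) a * z) ^ 2) z := by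
  have hne := mob_den_ne ha hz.le
  have h1 : HasDerivAt (fun z : ℂ => z + a) 1 z := (hasDerivAt_id' z).add_const a
  have h2 : HasDerivAt (fun z : ℂ => 1 + (starRingEnd ℂ) a * z) ((starRingEnd ℂ) a) z := by
    have := ((hasDerivAt_id' z).const_mul ((starRingEnd ℂ) a)).const_add 1
    simpa using this
  have h3 := h1.fun_div h2 hne
  refine h3.congr_deriv ?_
  congr 1
  ring

theorem norm_deriv_mob {a z : ℂ} (ha : ‖a‖ < 1) (hz : ‖z‖ < 1) :
    ‖(1 - (starRingEnd ℂ) a * a) / (1 + (starRingEnd ℂ) a * z) ^ 2‖ * (1 - ‖z‖ ^ 2)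
      = 1 - ‖mob a z‖ ^ 2 := by
  rw [one_sub_mob ha hz.le, norm_div, norm_pow]
  have e : (1 : ℂ) - (starRingEnd ℂ) a * a = ((1 - ‖a‖ ^ 2 : ℝ) : ℂ) := by
    rw [mul_comm, Complex.mul_conj, Complex.normSq_eq_norm_sq]
    push_cast
    ring
  rw [e, Complex.norm_real, Real.norm_eq_abs, abs_of_nonneg (by nlinarith [norm_nonneg a])]
  ring

theorem landau {F : ℂ → ℂ} (hF : DifferentiableOn ℂ F (ball 0 1)) (hF1 : deriv F 0 = 1) :
    ∃ S : Set ℂ, S ⊆ ball (0 : ℂ) 1 ∧ IsOpen S ∧ IsConnected S ∧ Set.InjOn F S ∧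
      ∃ w : ℂ, ball w (447 / 1000) ⊆ F '' S := by
  obtain ⟨ρ, hρ⟩ : ∃ ρ : ℝ, ρ = 9999 / 10000 := ⟨_, rfl⟩
  have hρ0 : 0 < ρ := by rw [hρ]; norm_num
  have hρ1 : ρ < 1 := by rw [hρ]; norm_num
  have hdF : DifferentiableOn ℂ (deriv F) (ball 0 1) := hF.deriv isOpen_ball
  have hρmem : ∀ z : ℂ, ‖z‖ ≤ 1 → (ρ : ℂ) * z ∈ ball (0 : ℂ) 1 := by
    intro z hz
    rw [mem_ball_zero_iff, norm_mul, Complex.norm_real, Real.norm_eq_abs, abs_of_pos hρ0]
    nlinarith [norm_nonneg z]
  -- the function to be maximized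
  set M : ℂ → ℝ := fun z => (1 - ‖z‖ ^ 2) * ‖deriv F ((ρ : ℂ) * z)‖ with hM
  have hMc : ContinuousOn M (closedBall 0 1) := by
    apply ContinuousOn.mul
    · fun_prop
    · apply ContinuousOn.norm
      apply hdF.continuousOn.comp (by fun_prop)
      intro z hz
      exact hρmem z (by simpa using hz)
  obtain ⟨a, ha, hamax⟩ := (isCompact_closedBall (0 : ℂ) 1).exists_isMaxOn ⟨0, by simp⟩ hMc
  have hM0 : M 0 = 1 := by simp [hM, hF1]
  have hMa : 1 ≤ M a := by
    rw [← hM0]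
    exact hamax (by simp)
  have ha1 : ‖a‖ < 1 := by
    have h1 : ‖a‖ ≤ 1 := by simpa using ha
    rcases lt_or_eq_of_le h1 with h | h
    · exact h
    · exfalso
      have : M a = 0 := by simp [hM, h]
      linarith
  -- the derivative of `F (ρ mob a z)` is `ρ * D z`
  set D : ℂ → ℂ := fun z => deriv F ((ρ : ℂ) * mob a z)
    * ((1 - (starRingEnd ℂ) a * a) / (1 + (starRingEnd ℂ) a * z) ^ 2) with hD
  have hmem : ∀ z : ℂ, ‖z‖ < 1 → (ρ : ℂ) * mob a z ∈ ball (0 : ℂ) 1 := fun z hz =>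
    hρmem _ (mob_mem ha1 hz).le
  have hcomp : ∀ z ∈ ball (0 : ℂ) 1,
      HasDerivAt (fun z => F ((ρ : ℂ) * mob a z)) ((ρ : ℂ) * D z) z := by
    intro z hz
    have hz' : ‖z‖ < 1 := by simpa using hz
    have h1 : HasDerivAt (fun z => (ρ : ℂ) * mob a z) _ z := (mob_hasDerivAt ha1 hz').const_mul (ρ : ℂ)
    have h2 : HasDerivAt F (deriv F ((ρ : ℂ) * mob a z)) ((ρ : ℂ) * mob a z) :=
      ((hF _ (hmem z hz')).differentiableAt (isOpen_ball.mem_nhds (hmem z hz'))).hasDerivAt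
    have h3 := HasDerivAt.comp (h₂ := F) z h2 h1
    refine h3.congr_deriv ?_
    simp only [hD]
    ring
  have hDn : ∀ z : ℂ, ‖z‖ < 1 → ‖D z‖ * (1 - ‖z‖ ^ 2) = M (mob a z) := by
    intro z hz
    simp only [hD, hM]
    rw [norm_mul, mul_assoc, norm_deriv_mob ha1 hz, mul_comm]
  have hmob0 : mob a 0 = a := by simp [mob]
  have hD0 : ‖D 0‖ = M a := by
    have := hDn 0 (by simp)
    rw [hmob0] at this
    simpa using this
  have hD0pos : 0 < ‖D 0‖ := by rw [hD0]; linarith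
  have hD0ne : D 0 ≠ 0 := norm_pos_iff.1 hD0pos
  have hρc : (ρ : ℂ) ≠ 0 := by exact_mod_cast hρ0.ne'
  -- the normalized function
  have hg : NB (fun z => D z / D 0) := by
    refine ⟨?_, ?_, div_self hD0ne⟩
    · apply DifferentiableOn.div_const
      apply DifferentiableOn.mul
      · apply hdF.comp
        · intro z hz
          have hz' : ‖z‖ < 1 := by simpa using hz
          exact (((mob_hasDerivAt ha1 hz').const_mul (ρ : ℂ)).differentiableAt).differentiableWithinAt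
        · intro z hz
          exact hmem z (by simpa using hz)
      · intro z hz
        have hz' : ‖z‖ < 1 := by simpa using hz
        have hne := mob_den_ne ha1 hz'.le
        apply DifferentiableAt.differentiableWithinAt
        apply DifferentiableAt.fun_div (by fun_prop) (by fun_prop)
        exact pow_ne_zero _ hne
    · intro z hz
      have hz' : ‖z‖ < 1 := by simpa using hz
      rw [norm_div, div_mul_eq_mul_div, div_le_one hD0pos, hDn z hz', hD0]
      exact hamax (by simpa using (mob_mem ha1 hz').le)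
  have hf : Prim (fun z => (F ((ρ : ℂ) * mob a z) - F ((ρ : ℂ) * a)) / ((ρ : ℂ) * D 0))
      (fun z => D z / D 0) := by
    refine ⟨?_, ?_⟩
    · intro z hz
      have h1 := ((hcomp z hz).sub_const (F ((ρ : ℂ) * a))).div_const ((ρ : ℂ) * D 0)
      refine h1.congr_deriv ?_
      field_simp
    · simp [hmob0]
  obtain ⟨hinj, c, hc⟩ := normal_disc hg hf
  -- the subdomain
  refine ⟨{w : ℂ | w ∈ ball (0 : ℂ) ρ ∧ mob (-a) (w / ρ) ∈ ball (0 : ℂ) (577 / 1000)}, ?_, ?_, ?_, ?_,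
    ?_⟩
  · rintro w ⟨hw, -⟩
    exact ball_subset_ball hρ1.le hw
  · -- open
    have hcont : ContinuousOn (fun w : ℂ => mob (-a) (w / ρ)) (ball 0 ρ) := by
      intro w hw
      have hw' : ‖w / (ρ : ℂ)‖ < 1 := by
        rw [norm_div, Complex.norm_real, Real.norm_eq_abs, abs_of_pos hρ0, div_lt_one hρ0]
        simpa using hw
      have h1 : ContinuousAt (mob (-a)) (w / ρ) :=
        (mob_hasDerivAt (by rwa [norm_neg]) hw').continuousAt
      have h2 : ContinuousAt (fun w : ℂ => w / (ρ : ℂ)) w := by fun_prop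
      exact (ContinuousAt.comp (f := fun w : ℂ => w / (ρ : ℂ)) h1 h2).continuousWithinAt
    exact hcont.isOpen_inter_preimage isOpen_ball isOpen_ball
  · -- connected: image of the ball
    have himg : {w : ℂ | w ∈ ball (0 : ℂ) ρ ∧ mob (-a) (w / ρ) ∈ ball (0 : ℂ) (577 / 1000)}
        = (fun z => (ρ : ℂ) * mob a z) '' ball (0 : ℂ) (577 / 1000) := by
      ext w
      constructor
      · rintro ⟨hw, hw2⟩
        refine ⟨_, hw2, ?_⟩
        have hw' : ‖w / (ρ : ℂ)‖ < 1 := by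
          rw [norm_div, Complex.norm_real, Real.norm_eq_abs, abs_of_pos hρ0, div_lt_one hρ0]
          simpa using hw
        simp only
        rw [mob_mob_neg ha1 hw']
        field_simp
      · rintro ⟨z, hz, rfl⟩
        have hz' : ‖z‖ < 1 := by
          have : ‖z‖ < 577 / 1000 := by simpa using hz
          linarith
        refine ⟨?_, ?_⟩
        · rw [mem_ball_zero_iff, norm_mul, Complex.norm_real, Real.norm_eq_abs, abs_of_pos hρ0]
          have := mob_mem ha1 hz'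
          nlinarith
        · have e : (ρ : ℂ) * mob a z / ρ = mob a z := by field_simp
          rw [e, mob_neg_mob ha1 hz']
          exact hz
    rw [himg]
    apply IsConnected.image
    · exact ⟨⟨0, by simp⟩, (convex_ball (0 : ℂ) (577 / 1000)).isPreconnected⟩
    · intro z hz
      have hz' : ‖z‖ < 1 := by
        have : ‖z‖ < 577 / 1000 := by simpa using hz
        linarith
      exact (((mob_hasDerivAt ha1 hz').const_mul (ρ : ℂ)).continuousAt).continuousWithinAt
  · -- injectivity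
    rintro w ⟨hw, hw2⟩ v ⟨hv, hv2⟩ hwv
    have hw' : ‖w / (ρ : ℂ)‖ < 1 := by
      rw [norm_div, Complex.norm_real, Real.norm_eq_abs, abs_of_pos hρ0, div_lt_one hρ0]
      simpa using hw
    have hv' : ‖v / (ρ : ℂ)‖ < 1 := by
      rw [norm_div, Complex.norm_real, Real.norm_eq_abs, abs_of_pos hρ0, div_lt_one hρ0]
      simpa using hv
    have e1 : (ρ : ℂ) * mob a (mob (-a) (w / ρ)) = w := by
      rw [mob_mob_neg ha1 hw']
      field_simp
    have e2 : (ρ : ℂ) * mob a (mob (-a) (v / ρ)) = v := by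
      rw [mob_mob_neg ha1 hv']
      field_simp
    have h := hinj hw2 hv2 (by simp only [e1, e2, hwv])
    rw [← e1, ← e2, h]
  · -- the disc
    refine ⟨F ((ρ : ℂ) * a) + (ρ : ℂ) * D 0 * c, ?_⟩
    intro w hw
    have h1 : (w - F ((ρ : ℂ) * a)) / ((ρ : ℂ) * D 0) ∈ ball c (44705 / 100000) := by
      rw [mem_ball, dist_eq_norm] at hw ⊢
      have e : (w - F ((ρ : ℂ) * a)) / ((ρ : ℂ) * D 0) - c
          = (w - (F ((ρ : ℂ) * a) + (ρ : ℂ) * D 0 * c)) / ((ρ : ℂ) * D 0) := by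
        field_simp
        ring
      rw [e, norm_div, norm_mul, Complex.norm_real, Real.norm_eq_abs, abs_of_pos hρ0,
        div_lt_iff₀ (by positivity)]
      have h2 : 1 ≤ ‖D 0‖ := by rw [hD0]; exact hMa
      have h3 : (447 / 1000 : ℝ) ≤ 44705 / 100000 * (ρ * ‖D 0‖) := by
        have : ρ ≤ ρ * ‖D 0‖ := by nlinarith
        rw [hρ] at this ⊢
        linarith
      linarith
    obtain ⟨z, hz, hzw⟩ := hc h1
    have hz' : ‖z‖ < 1 := by
      have : ‖z‖ < 577 / 1000 := by simpa using hz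
      linarith
    refine ⟨(ρ : ℂ) * mob a z, ⟨?_, ?_⟩, ?_⟩
    · rw [mem_ball_zero_iff, norm_mul, Complex.norm_real, Real.norm_eq_abs, abs_of_pos hρ0]
      have := mob_mem ha1 hz'
      nlinarith
    · have e : (ρ : ℂ) * mob a z / ρ = mob a z := by field_simp
      rw [e, mob_neg_mob ha1 hz']
      exact hz
    · simp only at hzw
      rw [div_left_inj' (by positivity)] at hzw
      linear_combination hzw

end Pool.Agent.Helper92.Bloch
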